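import Mathlib

/-! One parameter families of multiplicative functions with values `1` and `-1`: definitions. -/

set_option autoImplicit false

namespace Pool.Agent.L5helper4.ML

open Finset Filter MeasureTheory

/-- the square wave of period `2`: `(-1) ^ ⌊x⌋` -/
noncomputable def sq (x : ℝ) : ℝ := if Even ⌊x⌋ then 1 else -1

/-- Quasi-independence on `[u, v]` of the functions `s p`, `p` prime: if all primes `q` in `O` are at most `ρ p`, then
the integral of `∏ s q` times `s p` is at most `C (1 + |O|) ρ ^ κ`. -/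
def QI (s : ℕ → ℝ → ℝ) (u v C κ : ℝ) : Prop :=
  ∀ p : ℕ, p.Prime → ∀ O : Finset ℕ, (∀ q ∈ O, q.Prime ∧ q < p) → ∀ ρ : ℝ, 1 / (p : ℝ) ≤ ρ →
    (∀ q ∈ O, (q : ℝ) ≤ ρ * p) →
    |∫ t in u..v, (∏ q ∈ O, s q t) * s p t| ≤ C * (1 + O.card) * ρ ^ κ

lemma sq_or (x : ℝ) : sq x = 1 ∨ sq x = -1 := by
  unfold sq
  split_ifs <;> simp

lemma sq_meas : Measurable sq := by
  have h : sq = (fun k : ℤ => if Even k then (1 : ℝ) else -1) ∘ (fun x : ℝ => ⌊x⌋) := rfl
  rw [h]
  exact (measurable_of_countable _).comp Int.measurable_floor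

end Pool.Agent.L5helper4.ML
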