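import Mathlib
import Pool.Agent.Y949.DK.SV

/-! The sieve bound for the integers `n` with `n + h = a p`, `n + h' = b q`, `p` and `q` prime. -/

set_option autoImplicit false

namespace Pool.Agent.L5helper4.ML

open Finset Filter
open Pool.Agent.Y851.DK (sg)

lemma sg_nonneg (m : ℕ) : 0 ≤ sg m := sum_nonneg fun _ _ => by positivity

lemma sg_le_of_dvd {a b : ℕ} (h : a ∣ b) (hb : b ≠ 0) : sg a ≤ sg b :=
  sum_le_sum_of_subset_of_nonneg (Nat.primeFactors_mono h hb) fun _ _ _ => by positivity

lemma sg_le_self (m : ℕ) : sg m ≤ m := by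
  unfold sg
  calc ∑ p ∈ m.primeFactors, (1 : ℝ) / p ≤ ∑ p ∈ m.primeFactors, 1 := by
        apply sum_le_sum
        intro p hp
        have := (Nat.prime_of_mem_primeFactors hp).one_lt
        rw [div_le_one (by exact_mod_cast (by omega : 0 < p))]
        exact_mod_cast this.le
    _ = (m.primeFactors.card : ℝ) := by simp
    _ ≤ m := by
        have h1 : m.primeFactors ⊆ Icc 1 m := by
          intro p hp
          rw [Nat.mem_primeFactors] at hp
          rw [mem_Icc]
          exact ⟨hp.1.one_lt.le, Nat.le_of_dvd (Nat.pos_of_ne_zero hp.2.2) hp.2.1⟩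
        have := card_le_card h1
        rw [Nat.card_Icc] at this
        exact_mod_cast (by omega : m.primeFactors.card ≤ m)

open Classical in
/-- the sieve -/
theorem pair_count (H : ℕ) : ∃ C Y₀ : ℝ, 1 ≤ C ∧ 3 ≤ Y₀ ∧ ∀ h h' : ℕ, h ≤ H → h' ≤ H → h ≠ h' →
    ∀ a b Y : ℕ, 1 ≤ a → 1 ≤ b → ∀ T : ℝ, Y₀ ≤ T → (H : ℝ) * Y ≤ a * b * T →
    (((Icc 1 Y).filter (fun n : ℕ => ∃ p q : ℕ, p.Prime ∧ q.Prime ∧ n + h = a * p ∧ n + h' = b * q)).card : ℝ) ≤
      C * Real.exp (C * (sg a + sg b)) * (T / Real.log T ^ 2) := by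
  obtain ⟨C, hC, hh⟩ := Pool.Agent.Y949.DK.t_SV 2
  have hlog : ∀ᶠ T : ℝ in atTop, Real.log T ^ 2 ≤ T := by
    have h1 := (isLittleO_log_rpow_atTop (by norm_num : (0 : ℝ) < 1 / 2)).bound (by norm_num : (0 : ℝ) < 1)
    filter_upwards [h1, eventually_ge_atTop 1] with x h1 h2
    rw [Real.norm_eq_abs, Real.norm_eq_abs, one_mul, abs_of_nonneg (Real.log_nonneg h2),
      abs_of_nonneg (by positivity)] at h1
    calc Real.log x ^ 2 ≤ (x ^ (1 / 2 : ℝ)) ^ 2 := pow_le_pow_left₀ (Real.log_nonneg h2) h1 2
      _ = x := by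
        rw [← Real.rpow_natCast, ← Real.rpow_mul (by linarith)]
        norm_num
  obtain ⟨Y₁, hY₁⟩ := eventually_atTop.1 (hh.and hlog)
  refine ⟨C * Real.exp (C * (2 * H)) + 1, max Y₁ 3, ?_, le_max_right _ _, ?_⟩
  · have : 0 < C * Real.exp (C * (2 * H)) := by positivity
    linarith
  intro h h' hH hH' hne a b Y ha hb T hT hYT
  have hT3 : 3 ≤ T := (le_max_right _ _).trans hT
  obtain ⟨hSV, hlT⟩ := hY₁ T ((le_max_left _ _).trans hT)
  have hlogT : 0 < Real.log T := Real.log_pos (by linarith)
  have hTL : 1 ≤ T / Real.log T ^ 2 := by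
    rw [le_div_iff₀ (by positivity)]
    linarith
  set S := (Icc 1 Y).filter (fun n : ℕ => ∃ p q : ℕ, p.Prime ∧ q.Prime ∧ n + h = a * p ∧ n + h' = b * q) with hS
  set E := Real.exp (C * (sg a + sg b)) with hE
  have hE1 : 1 ≤ E := Real.one_le_exp (by have := sg_nonneg a; have := sg_nonneg b; positivity)
  have hCE : E ≤ Real.exp ((C * Real.exp (C * (2 * H)) + 1) * (sg a + sg b)) := by
    apply Real.exp_le_exp.2
    apply mul_le_mul_of_nonneg_right _ (by have := sg_nonneg a; have := sg_nonneg b; positivity)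
    have h1 : 1 ≤ Real.exp (C * (2 * H)) := Real.one_le_exp (by positivity)
    nlinarith
  have hmain : (S.card : ℝ) ≤ (C * Real.exp (C * (2 * H)) + 1) * E * (T / Real.log T ^ 2) := by
    rcases S.eq_empty_or_nonempty with hem | hnon
    · rw [hem, card_empty]
      push_cast
      positivity
    obtain ⟨n₀, hn₀, hmin⟩ := S.exists_min_image id hnon
    have hn₀' := hn₀
    rw [hS, mem_filter, mem_Icc] at hn₀'
    obtain ⟨⟨hn1, hnY⟩, p₀, q₀, hp₀, hq₀, e1, e2⟩ := hn₀'
    set ℓ := Nat.lcm a b with hℓ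
    have hℓ0 : 0 < ℓ := Nat.lcm_pos (by omega) (by omega)
    obtain ⟨a', ha'⟩ : a ∣ ℓ := Nat.dvd_lcm_left a b
    obtain ⟨b', hb'⟩ : b ∣ ℓ := Nat.dvd_lcm_right a b
    have hg : Nat.gcd a b * ℓ = a * b := Nat.gcd_mul_lcm a b
    have hg0 : 0 < Nat.gcd a b := Nat.gcd_pos_of_pos_left _ (by omega)
    -- the determinant
    have hdet : (a' : ℤ) * q₀ - b' * p₀ ≠ 0 ∧ ((a' : ℤ) * q₀ - b' * p₀).natAbs ≤ H ∧
        Nat.gcd a b ≤ H := by
      have h1 : ((a' : ℤ) * q₀ - b' * p₀) * (a * b) = ℓ * ((h' : ℤ) - h) := by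
        have e3 : (a : ℤ) * p₀ = n₀ + h := by exact_mod_cast e1.symm
        have e4 : (b : ℤ) * q₀ = n₀ + h' := by exact_mod_cast e2.symm
        have e5 : (a : ℤ) * a' = ℓ := by exact_mod_cast ha'.symm
        have e6 : (b : ℤ) * b' = ℓ := by exact_mod_cast hb'.symm
        calc ((a' : ℤ) * q₀ - b' * p₀) * (a * b) = (a * a') * (b * q₀) - (b * b') * (a * p₀) := by ring
          _ = _ := by rw [e3, e4, e5, e6]; ring
      have h2 : ((a' : ℤ) * q₀ - b' * p₀) * Nat.gcd a b = (h' : ℤ) - h := by
        have e7 : ((a : ℤ) * b) = Nat.gcd a b * ℓ := by exact_mod_cast hg.symm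
        rw [e7] at h1
        have hℓz : (ℓ : ℤ) ≠ 0 := by exact_mod_cast hℓ0.ne'
        apply mul_left_cancel₀ hℓz
        rw [← h1]
        ring
      have h3 : (h' : ℤ) - h ≠ 0 := by
        intro h4
        apply hne
        omega
      have h5 : (((a' : ℤ) * q₀ - b' * p₀).natAbs) * Nat.gcd a b = ((h' : ℤ) - h).natAbs := by
        rw [← h2, Int.natAbs_mul, Int.natAbs_natCast]
      have h6 : ((h' : ℤ) - h).natAbs ≤ H := by omega
      have h7 : ((a' : ℤ) * q₀ - b' * p₀) ≠ 0 := by
        intro h8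
        rw [h8, zero_mul] at h2
        exact h3 h2.symm
      have h8 : 0 < (((a' : ℤ) * q₀ - b' * p₀).natAbs) := Int.natAbs_pos.2 h7
      refine ⟨h7, ?_, ?_⟩
      · calc _ ≤ (((a' : ℤ) * q₀ - b' * p₀).natAbs) * Nat.gcd a b := Nat.le_mul_of_pos_right _ hg0
          _ ≤ H := by rw [h5]; exact h6
      · calc _ ≤ (((a' : ℤ) * q₀ - b' * p₀).natAbs) * Nat.gcd a b := Nat.le_mul_of_pos_left _ h8
          _ ≤ H := by rw [h5]; exact h6
    obtain ⟨hd0, hdH, hgH⟩ := hdet
    have ha'0 : 0 < a' := Nat.pos_of_ne_zero (by rintro rfl; omega)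
    have hb'0 : 0 < b' := Nat.pos_of_ne_zero (by rintro rfl; omega)
    set F : Finset (ℤ × ℤ) := {((a' : ℤ), (p₀ : ℤ)), ((b' : ℤ), (q₀ : ℤ))} with hF
    have hfne : ((a' : ℤ), (p₀ : ℤ)) ≠ ((b' : ℤ), (q₀ : ℤ)) := by
      intro h0
      rw [Prod.mk.injEq] at h0
      apply hd0
      rw [h0.1, h0.2]
      ring
    have h3 := hSV F (by rw [hF, card_pair hfne]) (by
        intro f hf
        rw [hF, mem_insert, mem_singleton] at hf
        rcases hf with rfl | rfl
        · simp only [ne_eq, Nat.cast_eq_zero]; omega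
        · simp only [ne_eq, Nat.cast_eq_zero]; omega) (by
        intro f hf g hg hfg
        rw [hF, mem_insert, mem_singleton] at hf hg
        rcases hf with rfl | rfl <;> rcases hg with rfl | rfl
        · exact absurd rfl hfg
        · exact hd0
        · simp only
          intro h0
          apply hd0
          linarith
        · exact absurd rfl hfg)
    have hsum : ∑ f ∈ F, sg f.1.natAbs + ∑ f ∈ F, ∑ g ∈ F,
        sg (f.1 * g.2 - g.1 * f.2).natAbs ≤ (sg a + sg b) + 2 * H := by
      have hs0 : sg 0 = 0 := by unfold Pool.Agent.Y851.DK.sg; simp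
      rw [hF, sum_pair hfne, sum_pair hfne, sum_pair hfne, sum_pair hfne]
      simp only [sub_self, Int.natAbs_zero, hs0, Int.natAbs_natCast]
      have e3 : ((b' : ℤ) * p₀ - a' * q₀).natAbs = ((a' : ℤ) * q₀ - b' * p₀).natAbs := by
        rw [← Int.natAbs_neg]
        congr 1
        ring
      rw [e3]
      have h4 : sg ((a' : ℤ) * q₀ - b' * p₀).natAbs ≤ H :=
        (sg_le_self _).trans (by exact_mod_cast hdH)
      have h5 : sg a' ≤ sg b := by
        apply sg_le_of_dvd _ (by omega)
        have : Nat.gcd a b * a' = b := by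
          have h6 : a * (Nat.gcd a b * a') = a * b := by
            rw [← hg, ha']
            ring
          exact Nat.eq_of_mul_eq_mul_left (by omega) h6
        exact ⟨_, by rw [mul_comm]; exact this.symm⟩
      have h6 : sg b' ≤ sg a := by
        apply sg_le_of_dvd _ (by omega)
        have : Nat.gcd a b * b' = a := by
          have h6 : b * (Nat.gcd a b * b') = b * a := by
            rw [mul_comm b a, ← hg, hb']
            ring
          exact Nat.eq_of_mul_eq_mul_left (by omega) h6
        exact ⟨_, by rw [mul_comm]; exact this.symm⟩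
      linarith
    -- the map
    have hcard : S.card ≤ ((Icc 1 ⌊T⌋₊).filter (fun t : ℕ => ∀ f ∈ F, (f.1 * (t : ℤ) + f.2).toNat.Prime)).card + 1 := by
      have h4 : S ⊆ insert n₀ (((Icc 1 ⌊T⌋₊).filter (fun t : ℕ => ∀ f ∈ F,
          (f.1 * (t : ℤ) + f.2).toNat.Prime)).image (fun t => n₀ + ℓ * t)) := by
        intro n hn
        rw [mem_insert]
        by_cases hnn : n = n₀
        · exact Or.inl hnn
        right
        have hle : n₀ ≤ n := hmin n hn
        have hn' := hn
        rw [hS, mem_filter, mem_Icc] at hn'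
        obtain ⟨⟨hn1', hnY'⟩, p, q, hp, hq, e3, e4⟩ := hn'
        have hda : a ∣ n - n₀ := by
          have h5 : n - n₀ = a * p - a * p₀ := by omega
          rw [h5, ← Nat.mul_sub]
          exact dvd_mul_right _ _
        have hdb : b ∣ n - n₀ := by
          have h5 : n - n₀ = b * q - b * q₀ := by omega
          rw [h5, ← Nat.mul_sub]
          exact dvd_mul_right _ _
        obtain ⟨t, ht⟩ := Nat.lcm_dvd hda hdb
        rw [← hℓ] at ht
        rw [mem_image]
        refine ⟨t, ?_, by omega⟩
        rw [mem_filter, mem_Icc]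
        have ht0 : 1 ≤ t := by
          by_contra h6
          have : t = 0 := by omega
          rw [this, mul_zero] at ht
          omega
        refine ⟨⟨ht0, ?_⟩, ?_⟩
        · rw [Nat.le_floor_iff (by linarith)]
          have h6 : (ℓ : ℝ) * t ≤ Y := by
            have : ℓ * t ≤ Y := by omega
            exact_mod_cast this
          have h7 : (Nat.gcd a b : ℝ) * ℓ = a * b := by exact_mod_cast hg
          have h8 : (Nat.gcd a b : ℝ) ≤ H := by exact_mod_cast hgH
          have hg0' : (0 : ℝ) < Nat.gcd a b := by exact_mod_cast hg0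
          have hℓ0' : (0 : ℝ) < ℓ := by exact_mod_cast hℓ0
          have h9 : (Nat.gcd a b : ℝ) * (ℓ * t) ≤ (Nat.gcd a b : ℝ) * (ℓ * T) := by
            calc (Nat.gcd a b : ℝ) * (ℓ * t) ≤ H * Y := by
                  apply mul_le_mul h8 h6 (by positivity) (by positivity)
              _ ≤ a * b * T := hYT
              _ = _ := by rw [← h7]; ring
          exact le_of_mul_le_mul_left (le_of_mul_le_mul_left h9 hg0') hℓ0'
        · intro f hf
          rw [hF, mem_insert, mem_singleton] at hf
          rcases hf with rfl | rfl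
          · simp only
            have h6 : a' * t + p₀ = p := by
              have h7 : a * (a' * t + p₀) = a * p := by
                calc a * (a' * t + p₀) = (a * a') * t + a * p₀ := by ring
                  _ = ℓ * t + a * p₀ := by rw [← ha']
                  _ = a * p := by omega
              exact Nat.eq_of_mul_eq_mul_left (by omega) h7
            have h8 : ((a' : ℤ) * (t : ℤ) + (p₀ : ℤ)).toNat = p := by
              rw [← h6]
              have : ((a' : ℤ) * (t : ℤ) + (p₀ : ℤ)) = ((a' * t + p₀ : ℕ) : ℤ) := by push_cast; ring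
              rw [this, Int.toNat_natCast]
            rw [h8]
            exact hp
          · simp only
            have h6 : b' * t + q₀ = q := by
              have h7 : b * (b' * t + q₀) = b * q := by
                calc b * (b' * t + q₀) = (b * b') * t + b * q₀ := by ring
                  _ = ℓ * t + b * q₀ := by rw [← hb']
                  _ = b * q := by omega
              exact Nat.eq_of_mul_eq_mul_left (by omega) h7
            have h8 : ((b' : ℤ) * (t : ℤ) + (q₀ : ℤ)).toNat = q := by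
              rw [← h6]
              have : ((b' : ℤ) * (t : ℤ) + (q₀ : ℤ)) = ((b' * t + q₀ : ℕ) : ℤ) := by push_cast; ring
              rw [this, Int.toNat_natCast]
            rw [h8]
            exact hq
      exact (card_le_card h4).trans ((card_insert_le _ _).trans (by
        have := card_image_le (s := (Icc 1 ⌊T⌋₊).filter (fun t : ℕ => ∀ f ∈ F,
          (f.1 * (t : ℤ) + f.2).toNat.Prime)) (f := fun t => n₀ + ℓ * t)
        omega))
    have hcard' : (S.card : ℝ) ≤ (((Icc 1 ⌊T⌋₊).filter (fun t : ℕ => ∀ f ∈ F,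
        (f.1 * (t : ℤ) + f.2).toNat.Prime)).card : ℝ) + 1 := by exact_mod_cast hcard
    have h4 : C * Real.exp (C * (∑ f ∈ F, sg f.1.natAbs + ∑ f ∈ F, ∑ g ∈ F,
        sg (f.1 * g.2 - g.1 * f.2).natAbs)) ≤ C * Real.exp (C * (2 * H)) * E := by
      rw [mul_assoc, hE, ← Real.exp_add]
      apply mul_le_mul_of_nonneg_left _ (by linarith)
      apply Real.exp_le_exp.2
      have := mul_le_mul_of_nonneg_left hsum (by linarith : 0 ≤ C)
      linarith
    calc (S.card : ℝ) ≤ C * Real.exp (C * (2 * H)) * E * (T / Real.log T ^ 2) + 1 := by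
          refine hcard'.trans ?_
          have := h3.trans (mul_le_mul_of_nonneg_right h4 (by linarith : 0 ≤ T / Real.log T ^ 2))
          linarith
      _ ≤ C * Real.exp (C * (2 * H)) * E * (T / Real.log T ^ 2) + E * (T / Real.log T ^ 2) := by
          have : 1 ≤ E * (T / Real.log T ^ 2) := one_le_mul_of_one_le_of_one_le hE1 hTL
          linarith
      _ = _ := by ring
  refine hmain.trans ?_
  apply mul_le_mul_of_nonneg_right _ (by linarith)
  apply mul_le_mul_of_nonneg_left hCE
  positivity

end Pool.Agent.L5helper4.ML
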