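import Mathlib
import Pool.Agent.R105.GD.Pairs
import Pool.Agent.Erdos456.Mertens
import Pool.Agent.L5helper4.ML.M1

/-! Sums over intervals with weights `1 / x`. -/

set_option autoImplicit false

namespace Pool.Agent.L5helper4.ML

open Finset Filter
open Pool.Agent.Y851.DK (sg)

/-- partial summation -/
lemma logsum1 (w : ℕ → ℝ) (C : ℝ) (h0 : ∀ x, 0 ≤ w x) (h : ∀ M : ℕ, ∑ x ∈ Icc 1 M, w x ≤ C * M)
    (A B : ℕ) (hA : 1 ≤ A) (hAB : A ≤ B) :
    ∑ x ∈ Ioc A B, w x / x - (∑ x ∈ Ioc A B, w x) / B ≤ C * Real.log (B / A) := by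
  induction B, hAB using Nat.le_induction with
  | base => simp [div_self (by exact_mod_cast (by omega : A ≠ 0) : (A : ℝ) ≠ 0)]
  | succ B hB ih =>
    have hA0 : (0 : ℝ) < A := by exact_mod_cast hA
    have hB0 : (0 : ℝ) < B := by exact_mod_cast (by omega : 0 < B)
    rw [← Finset.sum_Ioc_consecutive _ hB (Nat.le_succ B), ← Finset.sum_Ioc_consecutive _ hB (Nat.le_succ B)]
    have e1 : ∑ x ∈ Ioc B (B + 1), w x / x = w (B + 1) / (B + 1) := by
      rw [Nat.Ioc_succ_singleton, sum_singleton]; push_cast; rfl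
    have e2 : ∑ x ∈ Ioc B (B + 1), w x = w (B + 1) := by
      rw [Nat.Ioc_succ_singleton, sum_singleton]
    rw [e1, e2]
    obtain ⟨W, hW⟩ : ∃ W : ℝ, W = ∑ x ∈ Ioc A B, w x := ⟨_, rfl⟩
    rw [← hW] at ih ⊢
    have hWC : W ≤ C * B := by
      rw [hW]
      refine (sum_le_sum_of_subset_of_nonneg ?_ fun x _ _ => h0 x).trans (h B)
      intro x hx
      rw [mem_Ioc] at hx
      rw [mem_Icc]
      omega
    have hlog : 1 / ((B : ℝ) + 1) ≤ Real.log (((B + 1 : ℕ) : ℝ) / A) - Real.log (B / A) := by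
      rw [Real.log_div (by positivity) hA0.ne', Real.log_div hB0.ne' hA0.ne']
      have h1 : Real.log (B / (B + 1)) ≤ B / (B + 1) - 1 := Real.log_le_sub_one_of_pos (by positivity)
      rw [Real.log_div hB0.ne' (by positivity)] at h1
      push_cast
      have h2 : (B : ℝ) / (B + 1) - 1 = - (1 / (B + 1)) := by field_simp; ring
      linarith
    have hC : 0 ≤ C := by
      have h1 := (sum_nonneg fun x _ => h0 x).trans (h B)
      by_contra h2
      push Not at h2
      nlinarith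
    have h3 : W / B - W / (B + 1) ≤ C * (1 / (B + 1)) := by
      have e : W / B - W / (B + 1) = W / B * (1 / (B + 1)) := by field_simp; ring
      rw [e]
      apply mul_le_mul_of_nonneg_right _ (by positivity)
      rw [div_le_iff₀ hB0]
      exact hWC
    have h4 := mul_le_mul_of_nonneg_left hlog hC
    have h5 : (∑ x ∈ Ioc A B, w x / x) + w (B + 1) / (B + 1) - (W + w (B + 1)) / ((B + 1 : ℕ) : ℝ) =
        ((∑ x ∈ Ioc A B, w x / x) - W / B) + (W / B - W / (B + 1)) := by
      push_cast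
      rw [add_div]
      ring
    rw [h5]
    linarith

lemma logsum (w : ℕ → ℝ) (C : ℝ) (h0 : ∀ x, 0 ≤ w x) (h : ∀ M : ℕ, ∑ x ∈ Icc 1 M, w x ≤ C * M)
    (A B : ℕ) (hAB : A + 1 ≤ B) :
    ∑ x ∈ Ioc A B, w x / x ≤ C * (2 + Real.log ((B : ℝ) / (A + 1))) := by
  have hC : 0 ≤ C := by
    have h1 := (sum_nonneg fun x _ => h0 x).trans (h 1)
    simpa using h1
  have hw : ∀ x : ℕ, 1 ≤ x → w x ≤ C * x := by
    intro x hx
    exact (single_le_sum (f := w) (fun i _ => h0 i) (mem_Icc.2 ⟨hx, le_rfl⟩)).trans (h x)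
  have h1 := logsum1 w C h0 h (A + 1) B (by omega) hAB
  rw [← Finset.sum_Ioc_consecutive _ (Nat.le_succ A) hAB]
  have e1 : ∑ x ∈ Ioc A (A + 1), w x / x = w (A + 1) / (A + 1) := by
    rw [Nat.Ioc_succ_singleton, sum_singleton]; push_cast; rfl
  rw [Nat.succ_eq_add_one, e1]
  have h2 : w (A + 1) / (A + 1) ≤ C := by
    rw [div_le_iff₀ (by positivity)]
    have := hw (A + 1) (by omega)
    push_cast at this
    exact this
  have hB0 : (0 : ℝ) < B := by exact_mod_cast (by omega : 0 < B)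
  have h3 : (∑ x ∈ Ioc (A + 1) B, w x) / B ≤ C := by
    rw [div_le_iff₀ hB0]
    refine (sum_le_sum_of_subset_of_nonneg ?_ fun x _ _ => h0 x).trans (h B)
    intro x hx
    rw [mem_Ioc] at hx
    rw [mem_Icc]
    omega
  push_cast at h1
  linarith

/-- the same without the lower end condition -/
lemma logsum' (w : ℕ → ℝ) (C : ℝ) (h0 : ∀ x, 0 ≤ w x) (h : ∀ M : ℕ, ∑ x ∈ Icc 1 M, w x ≤ C * M)
    (A B : ℕ) (R : ℝ) (hR : 1 ≤ R) (hAB : (B : ℝ) ≤ R * (A + 1)) :
    ∑ x ∈ Ioc A B, w x / x ≤ C * (2 + Real.log R) := by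
  have hC : 0 ≤ C := by
    have h1 := (sum_nonneg fun x _ => h0 x).trans (h 1)
    simpa using h1
  by_cases hAB' : A + 1 ≤ B
  · refine (logsum w C h0 h A B hAB').trans ?_
    apply mul_le_mul_of_nonneg_left _ hC
    have hB0 : (0 : ℝ) < B := by exact_mod_cast (by omega : 0 < B)
    have : Real.log ((B : ℝ) / (A + 1)) ≤ Real.log R := by
      apply Real.log_le_log (by positivity)
      rw [div_le_iff₀ (by positivity)]
      exact hAB
    linarith
  · rw [Ioc_eq_empty_of_le (by omega), sum_empty]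
    have := Real.log_nonneg hR
    positivity

/-- primes in an interval -/
lemma primes_interval (A B : ℕ) (R : ℝ) (hA : 2 ≤ A) (hR : 1 ≤ R) (hAB : (B : ℝ) ≤ R * (A + 1)) :
    ∑ p ∈ (Ioc A B).filter Nat.Prime, (1 : ℝ) / p ≤ 2 * (2 + Real.log R) / Real.log A := by
  have hlA : 0 < Real.log A := Real.log_pos (by exact_mod_cast (by omega : 1 < A))
  have h1 := logsum' (fun x => if x.Prime ∧ A < x then Real.log A else 0) 2 (fun x => by
      show 0 ≤ (if x.Prime ∧ A < x then Real.log A else 0)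
      split_ifs
      · exact hlA.le
      · exact le_rfl) (fun M => by
      rw [← sum_filter]
      calc ∑ x ∈ (Icc 1 M).filter (fun x => x.Prime ∧ A < x), Real.log A
          ≤ ∑ x ∈ (Icc 1 M).filter (fun x => x.Prime ∧ A < x), Real.log x := by
            apply sum_le_sum
            intro x hx
            rw [mem_filter] at hx
            apply Real.log_le_log (by exact_mod_cast (by omega : 0 < A))
            exact_mod_cast hx.2.2.le
        _ ≤ Chebyshev.theta M := by
            unfold Chebyshev.theta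
            apply sum_le_sum_of_subset_of_nonneg
            · intro x hx
              rw [mem_filter, mem_Icc] at hx
              rw [mem_filter, mem_Ioc, Nat.floor_natCast]
              exact ⟨⟨by omega, hx.1.2⟩, hx.2.1⟩
            · intro x hx _
              rw [mem_filter, mem_Ioc] at hx
              exact Real.log_nonneg (by exact_mod_cast hx.2.one_lt.le)
        _ ≤ Real.log 4 * M := Chebyshev.theta_le_log4_mul_x (by positivity)
        _ ≤ 2 * M := by
            apply mul_le_mul_of_nonneg_right _ (by positivity)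
            have : (4 : ℝ) = 2 ^ 2 := by norm_num
            rw [this, Real.log_pow]
            have := Real.log_two_lt_d9
            push_cast
            linarith) A B R hR hAB
  rw [le_div_iff₀ hlA, sum_mul]
  refine le_trans (le_of_eq ?_) h1
  rw [sum_filter]
  apply sum_congr rfl
  intro x hx
  rw [mem_Ioc] at hx
  by_cases hp : x.Prime
  · rw [if_pos hp, if_pos ⟨hp, hx.1⟩]
    ring
  · rw [if_neg hp, if_neg (fun h => hp h.1)]
    simp

/-- the double sum over `a` and `b` -/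
lemma sum_ab (c : ℝ) (hc : 0 < c) : ∃ C : ℝ, 1 ≤ C ∧ ∀ (X B : ℕ) (K : ℝ), 1 ≤ X → 1 ≤ K →
    ∑ a ∈ Icc 1 X, ∑ b ∈ (Icc 1 B).filter (fun b : ℕ => a < 2 * b ∧ (b : ℝ) ≤ 2 * K * a),
      Real.exp (c * (sg a + sg b)) / (a * b) ≤ C * (2 + Real.log X) * (2 + Real.log (4 * K)) := by
  obtain ⟨C, hC, h⟩ := Pool.Agent.R105.GD.exp_avg c hc
  refine ⟨C * C, by nlinarith, fun X B K hX hK => ?_⟩
  have hin : ∀ a ∈ Icc 1 X, ∑ b ∈ (Icc 1 B).filter (fun b : ℕ => a < 2 * b ∧ (b : ℝ) ≤ 2 * K * a),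
      Real.exp (c * (sg a + sg b)) / (a * b) ≤ Real.exp (c * sg a) / a * (C * (2 + Real.log (4 * K))) := by
    intro a ha
    rw [mem_Icc] at ha
    have ha0 : (0 : ℝ) < a := by exact_mod_cast (by omega : 0 < a)
    have h1 := logsum' (fun x => Real.exp (c * sg x)) C (fun x => (Real.exp_pos _).le) h (a / 2) ⌊2 * K * a⌋₊
      (4 * K) (by linarith) (by
        have h2 : ((⌊2 * K * a⌋₊ : ℕ) : ℝ) ≤ 2 * K * a := Nat.floor_le (by positivity)
        have h3 : (a : ℝ) ≤ 2 * (((a / 2 : ℕ) : ℝ) + 1) := by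
          have : a ≤ 2 * (a / 2 + 1) := by omega
          exact_mod_cast this
        calc ((⌊2 * K * a⌋₊ : ℕ) : ℝ) ≤ 2 * K * a := h2
          _ ≤ 2 * K * (2 * (((a / 2 : ℕ) : ℝ) + 1)) := mul_le_mul_of_nonneg_left h3 (by positivity)
          _ = _ := by ring)
    calc ∑ b ∈ (Icc 1 B).filter (fun b : ℕ => a < 2 * b ∧ (b : ℝ) ≤ 2 * K * a),
          Real.exp (c * (sg a + sg b)) / (a * b)
        ≤ ∑ b ∈ Ioc (a / 2) ⌊2 * K * a⌋₊, Real.exp (c * (sg a + sg b)) / (a * b) := by
          apply sum_le_sum_of_subset_of_nonneg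
          · intro b hb
            rw [mem_filter, mem_Icc] at hb
            rw [mem_Ioc, Nat.le_floor_iff (by positivity)]
            exact ⟨by omega, hb.2.2⟩
          · intro _ _ _
            positivity
      _ = Real.exp (c * sg a) / a * ∑ b ∈ Ioc (a / 2) ⌊2 * K * a⌋₊, Real.exp (c * sg b) / b := by
          rw [mul_sum]
          apply sum_congr rfl
          intro b _
          rw [mul_add, Real.exp_add]
          ring
      _ ≤ _ := mul_le_mul_of_nonneg_left h1 (by positivity)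
  refine (sum_le_sum hin).trans ?_
  rw [← sum_mul]
  have h2 := logsum' (fun x => Real.exp (c * sg x)) C (fun x => (Real.exp_pos _).le) h 0 X X
    (by exact_mod_cast hX) (by simp)
  have h3 : ∑ a ∈ Icc 1 X, Real.exp (c * sg a) / a ≤ C * (2 + Real.log X) := h2
  have hl : 0 ≤ Real.log (4 * K) := Real.log_nonneg (by linarith)
  calc _ ≤ C * (2 + Real.log X) * (C * (2 + Real.log (4 * K))) :=
        mul_le_mul_of_nonneg_right h3 (by positivity)
    _ = _ := by ring

/-- the sum of `1 / p` -/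
lemma sum_inv : ∃ C : ℝ, 0 ≤ C ∧ ∀ X : ℕ, 3 ≤ X →
    ∑ p ∈ (Icc 1 X).filter Nat.Prime, (1 : ℝ) / p ≤ Real.log (Real.log X) + C := by
  obtain ⟨C, h⟩ := Pool.Agent.Erdos456.Mert.mertens_inv
  have h0 : 0 ≤ C := (abs_nonneg _).trans (h 3 le_rfl)
  exact ⟨C, h0, fun X hX => by have := (abs_le.1 (h X hX)).2; linarith⟩

end Pool.Agent.L5helper4.ML
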