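import Mathlib
import Pool.Agent.L5helper4.ML.M2
import Pool.Agent.N375.AV.A

/-! Integers `n` for which the largest prime factor of `∏ (n + h)` is much larger than all other prime factors: the
exceptions in a dyadic interval. -/

set_option autoImplicit false

namespace Pool.Agent.L5helper4.ML

open Finset Filter
open Pool.Agent.Y851.DK (sg)

/-- the product of the shifted integers -/
def RR (T : Finset ℕ) (n : ℕ) : ℕ := ∏ h ∈ T, (n + h)

/-- `P` is a prime `> z`, it divides `R` exactly once, and all other primes dividing `R` are at most `P / K` -/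
def Dom (K z R P : ℕ) : Prop := P.Prime ∧ z < P ∧ R.factorization P = 1 ∧
  ∀ q : ℕ, q.Prime → q ∣ R → q ≠ P → K * q ≤ P

lemma RR_ne {T : Finset ℕ} {n : ℕ} (hn : 1 ≤ n) : RR T n ≠ 0 :=
  prod_ne_zero_iff.2 fun _ _ => by omega

lemma bad_cases {T : Finset ℕ} {H K z n : ℕ} (hn : 1 ≤ n) (hT : ∀ h ∈ T, h ≤ H) (hz : H ≤ z) {h₀ : ℕ} (hh₀ : h₀ ∈ T)
    (hbad : ¬ ∃ P, Dom K z (RR T n) P) :
    (∀ p : ℕ, p.Prime → p ∣ n + h₀ → p ≤ z) ∨ (∃ h ∈ T, ∃ p : ℕ, p.Prime ∧ z < p ∧ p ^ 2 ∣ n + h) ∨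
    ∃ h ∈ T, ∃ h' ∈ T, ∃ p q : ℕ, p.Prime ∧ q.Prime ∧ z < p ∧ q < p ∧ p < K * q ∧ p ∣ n + h ∧ q ∣ n + h' := by
  by_cases hA : ∀ p : ℕ, p.Prime → p ∣ n + h₀ → p ≤ z
  · exact Or.inl hA
  right
  push Not at hA
  obtain ⟨p₀, hp₀, hd₀, hz₀⟩ := hA
  have hR0 : RR T n ≠ 0 := RR_ne hn
  have hdR : p₀ ∣ RR T n := hd₀.trans (dvd_prod_of_mem _ hh₀)
  have hne : (RR T n).primeFactors.Nonempty := ⟨p₀, Nat.mem_primeFactors.2 ⟨hp₀, hdR, hR0⟩⟩
  obtain ⟨P, hPm, hPmax⟩ := (RR T n).primeFactors.exists_max_image id hne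
  have hP : P.Prime := Nat.prime_of_mem_primeFactors hPm
  have hPR : P ∣ RR T n := Nat.dvd_of_mem_primeFactors hPm
  have hzP : z < P := hz₀.trans_le (hPmax p₀ (Nat.mem_primeFactors.2 ⟨hp₀, hdR, hR0⟩))
  obtain ⟨h, hh, hPh⟩ := (Prime.dvd_finsetProd_iff hP.prime _).1 hPR
  have hfac : (RR T n).factorization P = (n + h).factorization P := by
    unfold RR
    rw [Nat.factorization_prod fun x _ => by omega, Finsupp.finset_sum_apply]
    apply sum_eq_single_of_mem h hh
    intro h'' hh'' hne''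
    apply Nat.factorization_eq_zero_of_not_dvd
    intro hP2
    have h1 : (P : ℤ) ∣ (h'' : ℤ) - h := by
      have h2 : (P : ℤ) ∣ ((n + h'' : ℕ) : ℤ) - ((n + h : ℕ) : ℤ) :=
        dvd_sub (by exact_mod_cast hP2) (by exact_mod_cast hPh)
      push_cast at h2
      have h3 : (n : ℤ) + h'' - (n + h) = (h'' : ℤ) - h := by ring
      rwa [h3] at h2
    have h4 := Int.natAbs_dvd_natAbs.2 h1
    rw [Int.natAbs_natCast] at h4
    have h5 := Nat.le_of_dvd (by omega) h4
    have h6 := hT h hh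
    have h7 := hT h'' hh''
    omega
  by_cases h1 : (RR T n).factorization P = 1
  · right
    by_contra hno
    apply hbad
    refine ⟨P, hP, hzP, h1, fun q hq hqR hqP => ?_⟩
    by_contra h2
    push Not at h2
    apply hno
    obtain ⟨h', hh', hqh⟩ := (Prime.dvd_finsetProd_iff hq.prime _).1 hqR
    have h3 : q ≤ P := hPmax q (Nat.mem_primeFactors.2 ⟨hq, hqR, hR0⟩)
    exact ⟨h, hh, h', hh', P, q, hP, hq, hzP, lt_of_le_of_ne h3 hqP, h2, hPh, hqh⟩
  · left
    refine ⟨h, hh, P, hP, hzP, ?_⟩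
    rw [hfac] at h1
    have h2 : 0 < (n + h).factorization P := hP.factorization_pos_of_dvd (by omega) hPh
    exact (hP.pow_dvd_iff_le_factorization (by omega)).2 (by omega)

/-- elements of an interval in one residue class -/
lemma class_card (S : Finset ℕ) (y L m : ℕ) (hm : 1 ≤ m) (hS : ∀ n ∈ S, y < n ∧ n ≤ y + L)
    (hc : ∀ n ∈ S, ∀ n' ∈ S, n ≤ n' → m ∣ n' - n) : (S.card : ℝ) ≤ L / m + 1 := by
  have hm0 : (0 : ℝ) < m := by exact_mod_cast hm
  rcases S.eq_empty_or_nonempty with h | h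
  · rw [h, card_empty]
    push_cast
    positivity
  obtain ⟨n₀, hn₀, hmin⟩ := S.exists_min_image id h
  have h1 : S.card ≤ (range (L / m + 1)).card := by
    apply card_le_card_of_injOn (fun n => (n - n₀) / m)
    · intro n hn
      have h2 := hS n hn
      have h3 := hS n₀ hn₀
      rw [mem_coe, mem_range]
      have : (n - n₀) / m ≤ L / m := Nat.div_le_div_right (by omega)
      exact Nat.lt_succ_of_le this
    · intro n hn n' hn' he
      have h2 := hc n₀ hn₀ n hn (hmin n hn)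
      have h3 := hc n₀ hn₀ n' hn' (hmin n' hn')
      have h4 := Nat.div_mul_cancel h2
      have h5 := Nat.div_mul_cancel h3
      have h6 : n₀ ≤ n := hmin n hn
      have h7 : n₀ ≤ n' := hmin n' hn'
      have h8 : (n - n₀) / m = (n' - n₀) / m := he
      rw [h8] at h4
      have h9 : n - n₀ = n' - n₀ := by rw [← h4, h5]
      omega
  rw [card_range] at h1
  calc (S.card : ℝ) ≤ ((L / m + 1 : ℕ) : ℝ) := by exact_mod_cast h1
    _ ≤ L / m + 1 := by
      push_cast
      have := @Nat.cast_div_le ℝ _ _ _ L m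
      linarith

/-- one divisibility condition -/
lemma count_one (y p h : ℕ) (hp : 1 ≤ p) :
    (((Ioc y (2 * y)).filter (fun n => p ∣ n + h)).card : ℝ) ≤ y / p + 1 := by
  apply class_card _ y y p hp
  · intro n hn
    rw [mem_filter, mem_Ioc] at hn
    omega
  · intro n hn n' hn' hle
    rw [mem_filter] at hn hn'
    have : n' - n = (n' + h) - (n + h) := by omega
    rw [this]
    exact Nat.dvd_sub hn'.2 hn.2

/-- two divisibility conditions -/
lemma count_two (y p q h h' : ℕ) (hp : p.Prime) (hq : q.Prime) (hpq : q ≠ p) :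
    (((Ioc y (2 * y)).filter (fun n => p ∣ n + h ∧ q ∣ n + h')).card : ℝ) ≤ y / (p * q) + 1 := by
  have h1 := class_card ((Ioc y (2 * y)).filter (fun n => p ∣ n + h ∧ q ∣ n + h')) y y (p * q)
    (Nat.mul_pos hp.pos hq.pos) (by
      intro n hn
      rw [mem_filter, mem_Ioc] at hn
      omega) (by
      intro n hn n' hn' hle
      rw [mem_filter] at hn hn'
      apply Nat.Coprime.mul_dvd_of_dvd_of_dvd
      · exact (Nat.coprime_primes hp hq).2 (fun h => hpq h.symm)
      · have : n' - n = (n' + h) - (n + h) := by omega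
        rw [this]
        exact Nat.dvd_sub hn'.2.1 hn.2.1
      · have : n' - n = (n' + h') - (n + h') := by omega
        rw [this]
        exact Nat.dvd_sub hn'.2.2 hn.2.2)
  push_cast at h1
  exact h1

/-- the sum over pairs of close primes -/
lemma close_sum (K z : ℕ) (hK : 1 ≤ K) (hz : (2 * K) ^ 2 ≤ z) (X : ℕ) (hX : 3 ≤ X) (C : ℝ)
    (hC : ∑ p ∈ (Icc 1 X).filter Nat.Prime, (1 : ℝ) / p ≤ C) (R : ℝ) (N : ℕ → ℕ) (hR : 1 ≤ R)
    (hN : ∀ p, ((N p : ℕ) : ℝ) ≤ R * ((p / K : ℕ) + 1)) :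
    ∑ p ∈ (Ioc z X).filter Nat.Prime, ∑ q ∈ (Ioc (p / K) (N p)).filter Nat.Prime, (1 : ℝ) / (p * q) ≤
      C * (4 * (2 + Real.log R) / Real.log z) := by
  have hz4 : 4 ≤ z := by nlinarith
  have hz0 : (0 : ℝ) < z := by exact_mod_cast (by omega : 0 < z)
  have hlz : 0 < Real.log z := Real.log_pos (by exact_mod_cast (by omega : 1 < z))
  have hin : ∀ p ∈ (Ioc z X).filter Nat.Prime, ∑ q ∈ (Ioc (p / K) (N p)).filter Nat.Prime, (1 : ℝ) / (p * q) ≤
      1 / p * (4 * (2 + Real.log R) / Real.log z) := by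
    intro p hp
    rw [mem_filter, mem_Ioc] at hp
    have hp0 : (0 : ℝ) < p := by exact_mod_cast hp.2.pos
    -- p / K ≥ sqrt z
    have h1 : Nat.sqrt z + 1 ≤ p / K := by
      rw [Nat.le_div_iff_mul_le (by omega)]
      have h2 : 2 * K ≤ Nat.sqrt z := by
        rw [Nat.le_sqrt']
        exact hz
      have h3 : Nat.sqrt z * Nat.sqrt z ≤ z := Nat.sqrt_le z
      have h4 : (Nat.sqrt z + 1) * K ≤ Nat.sqrt z * Nat.sqrt z := by
        have : Nat.sqrt z + 1 ≤ 2 * Nat.sqrt z := by omega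
        calc (Nat.sqrt z + 1) * K ≤ (2 * Nat.sqrt z) * K := Nat.mul_le_mul_right _ this
          _ = Nat.sqrt z * (2 * K) := by ring
          _ ≤ _ := Nat.mul_le_mul_left _ h2
      omega
    have h2 : Real.log z / 2 ≤ Real.log ((p / K : ℕ) : ℝ) := by
      have h3 : z < (p / K) ^ 2 := by
        have h4 : z < (Nat.sqrt z + 1) ^ 2 := Nat.lt_succ_sqrt' z
        exact h4.trans_le (Nat.pow_le_pow_left h1 2)
      have h4 : Real.log z ≤ Real.log ((p / K : ℕ) : ℝ) * 2 := by
        rw [mul_comm]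
        have h5 : Real.log (((p / K : ℕ) : ℝ) ^ 2) = 2 * Real.log ((p / K : ℕ) : ℝ) := by
          rw [Real.log_pow]; push_cast; rfl
        rw [← h5]
        apply Real.log_le_log hz0
        exact_mod_cast h3.le
      linarith
    have h3 := primes_interval (p / K) (N p) R (by
      have : 2 ≤ Nat.sqrt z := by rw [Nat.le_sqrt']; omega
      omega) hR (hN p)
    calc ∑ q ∈ (Ioc (p / K) (N p)).filter Nat.Prime, (1 : ℝ) / (p * q)
        = 1 / p * ∑ q ∈ (Ioc (p / K) (N p)).filter Nat.Prime, (1 : ℝ) / q := by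
          rw [mul_sum]
          apply sum_congr rfl
          intro q _
          rw [one_div_mul_one_div]
      _ ≤ 1 / p * (2 * (2 + Real.log R) / Real.log ((p / K : ℕ) : ℝ)) :=
          mul_le_mul_of_nonneg_left h3 (by positivity)
      _ ≤ _ := by
          apply mul_le_mul_of_nonneg_left _ (by positivity)
          have h4 : 0 ≤ 2 + Real.log R := by have := Real.log_nonneg hR; linarith
          calc 2 * (2 + Real.log R) / Real.log ((p / K : ℕ) : ℝ) ≤ 2 * (2 + Real.log R) / (Real.log z / 2) := by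
                apply div_le_div_of_nonneg_left (by positivity) (by positivity) h2
            _ = _ := by field_simp; ring
  refine (sum_le_sum hin).trans ?_
  rw [← sum_mul]
  apply mul_le_mul_of_nonneg_right _ (by
    have := Real.log_nonneg hR
    positivity)
  refine le_trans (sum_le_sum_of_subset_of_nonneg ?_ fun _ _ _ => by positivity) hC
  intro p hp
  rw [mem_filter, mem_Ioc] at hp
  rw [mem_filter, mem_Icc]
  exact ⟨by omega, hp.2⟩

end Pool.Agent.L5helper4.ML
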