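import Mathlib
import Pool.Agent.L5helper4.ML.Defs
import Pool.Agent.L5helper4.ML.M3
import Pool.Agent.W136.RF.Prob

set_option autoImplicit false

namespace Pool.Agent.L5helper4.ML

open Finset Filter MeasureTheory
open Pool.Agent.W136.RF (cm)

/-- the product over the shifts `h ∈ T` of the completely multiplicative function with the values `s p t` at the
primes -/
noncomputable def FF (s : ℕ → ℝ → ℝ) (T : Finset ℕ) (n : ℕ) (t : ℝ) : ℝ := ∏ h ∈ T, cm (fun p => s p t) (n + h)

end Pool.Agent.L5helper4.ML
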