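import Mathlib
import Pool.Agent.L5helper4.ML.M3

/-! The exceptions in a dyadic interval: the five cases. -/

set_option autoImplicit false

namespace Pool.Agent.L5helper4.ML

open Finset Filter Classical
open Pool.Agent.Y851.DK (sg)

/-- case A: smooth numbers -/
lemma caseA : ∃ C : ℝ, 1 ≤ C ∧ ∀ y z h : ℕ, 3 ≤ z → 1 ≤ y → h ≤ y →
    (((Ioc y (2 * y)).filter (fun n => ∀ p : ℕ, p.Prime → p ∣ n + h → p ≤ z)).card : ℝ) ≤
      C * (√y + y * Real.log z * Real.exp (-(Real.log y / (8 * Real.log z)))) := by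
  obtain ⟨C, hC, hs⟩ := Pool.Agent.N375.AV.smooth_few
  refine ⟨3 * C, by linarith, fun y z h hz hy hh => ?_⟩
  have h1 : ((Ioc y (2 * y)).filter (fun n => ∀ p : ℕ, p.Prime → p ∣ n + h → p ≤ z)).card ≤
      ((Icc 1 (3 * y)).filter (fun n => ∀ p : ℕ, p.Prime → p ∣ n → p ≤ z)).card := by
    apply card_le_card_of_injOn (fun n => n + h)
    · intro n hn
      rw [mem_coe, mem_filter, mem_Ioc] at hn
      rw [mem_coe, mem_filter, mem_Icc]
      have e1 : 1 ≤ n + h := by omega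
      have e2 : n + h ≤ 3 * y := by omega
      exact ⟨⟨e1, e2⟩, hn.2⟩
    · intro a _ b _ hab
      have : a + h = b + h := hab
      omega
  have h2 := hs z (3 * y) hz (by omega)
  have hy0 : (0 : ℝ) < y := by exact_mod_cast hy
  have hlz : 0 < Real.log z := Real.log_pos (by exact_mod_cast (by omega : 1 < z))
  have h3 : √((3 * y : ℕ) : ℝ) ≤ 3 * √y := by
    push_cast
    rw [Real.sqrt_mul (by norm_num)]
    apply mul_le_mul_of_nonneg_right _ (Real.sqrt_nonneg _)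
    rw [show (3 : ℝ) = √(3 ^ 2) by rw [Real.sqrt_sq (by norm_num)]]
    apply Real.sqrt_le_sqrt
    norm_num
  have h4 : Real.exp (-(Real.log ((3 * y : ℕ) : ℝ) / (8 * Real.log z))) ≤
      Real.exp (-(Real.log y / (8 * Real.log z))) := by
    apply Real.exp_le_exp.2
    apply neg_le_neg
    apply div_le_div_of_nonneg_right _ (by positivity)
    apply Real.log_le_log hy0
    push_cast
    linarith
  have h1' : (((Ioc y (2 * y)).filter (fun n => ∀ p : ℕ, p.Prime → p ∣ n + h → p ≤ z)).card : ℝ) ≤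
      ((Icc 1 (3 * y)).filter (fun n => ∀ p : ℕ, p.Prime → p ∣ n → p ≤ z)).card := by exact_mod_cast h1
  calc (((Ioc y (2 * y)).filter (fun n => ∀ p : ℕ, p.Prime → p ∣ n + h → p ≤ z)).card : ℝ) ≤ _ := h1'
    _ ≤ _ := h2
    _ ≤ 3 * √y + C * (3 * y) * Real.log z * Real.exp (-(Real.log y / (8 * Real.log z))) := by
        apply add_le_add h3
        have : ((3 * y : ℕ) : ℝ) = 3 * y := by push_cast; ring
        rw [this] at h4 ⊢
        exact mul_le_mul_of_nonneg_left h4 (by positivity)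
    _ ≤ 3 * C * √y + C * (3 * y) * Real.log z * Real.exp (-(Real.log y / (8 * Real.log z))) := by
        have : 0 ≤ √(y : ℝ) := Real.sqrt_nonneg _
        nlinarith
    _ = _ := by ring

/-- case B: squares of large primes -/
lemma caseB (y z h : ℕ) (hz : 1 ≤ z) (hh : h ≤ y) :
    (((Ioc y (2 * y)).filter (fun n => ∃ p : ℕ, p.Prime ∧ z < p ∧ p ^ 2 ∣ n + h)).card : ℝ) ≤ 6 * y / z := by
  have h1 : ((Ioc y (2 * y)).filter (fun n => ∃ p : ℕ, p.Prime ∧ z < p ∧ p ^ 2 ∣ n + h)).card ≤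
      ((Icc 1 (3 * y)).filter (fun n => (∃ p : ℕ, p.Prime ∧ z < p ∧ p ^ 2 ∣ n) ∨
      ∃ q j : ℕ, q.Prime ∧ q ≤ z ∧ z ^ 2 ≤ q ^ j ∧ q ^ j ∣ n)).card := by
    apply card_le_card_of_injOn (fun n => n + h)
    · intro n hn
      rw [mem_coe, mem_filter, mem_Ioc] at hn
      rw [mem_coe, mem_filter, mem_Icc]
      have e1 : 1 ≤ n + h := by omega
      have e2 : n + h ≤ 3 * y := by omega
      exact ⟨⟨e1, e2⟩, Or.inl hn.2⟩
    · intro a _ b _ hab
      have : a + h = b + h := hab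
      omega
  have h2 := Pool.Agent.N375.AV.powers_few (3 * y) z hz
  have h3 : (((Ioc y (2 * y)).filter (fun n => ∃ p : ℕ, p.Prime ∧ z < p ∧ p ^ 2 ∣ n + h)).card : ℝ) ≤
    ((Icc 1 (3 * y)).filter (fun n => (∃ p : ℕ, p.Prime ∧ z < p ∧ p ^ 2 ∣ n) ∨
      ∃ q j : ℕ, q.Prime ∧ q ≤ z ∧ z ^ 2 ≤ q ^ j ∧ q ^ j ∣ n)).card := by exact_mod_cast h1
  refine h3.trans (h2.trans (le_of_eq ?_))
  push_cast
  ring

/-- case E1: two close primes with a small product -/
lemma caseE1 (y z K h h' : ℕ) (hK : 1 ≤ K) (hz : (2 * K) ^ 2 ≤ z) (hy : 1 ≤ y) (C : ℝ)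
    (hC : ∑ p ∈ (Icc 1 (3 * y)).filter Nat.Prime, (1 : ℝ) / p ≤ C) :
    (((Ioc y (2 * y)).filter (fun n => ∃ p q : ℕ, p.Prime ∧ q.Prime ∧ z < p ∧ q < p ∧ p < K * q ∧
      p * q ≤ 3 * y ∧ p ∣ n + h ∧ q ∣ n + h')).card : ℝ) ≤ 16 * (y * (C * (2 + Real.log K) / Real.log z)) := by
  have hsub : (Ioc y (2 * y)).filter (fun n => ∃ p q : ℕ, p.Prime ∧ q.Prime ∧ z < p ∧ q < p ∧ p < K * q ∧
      p * q ≤ 3 * y ∧ p ∣ n + h ∧ q ∣ n + h') ⊆
      ((Ioc z (3 * y)).filter Nat.Prime).biUnion (fun p =>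
        ((Ioc (p / K) p).filter Nat.Prime).biUnion (fun q => if q < p ∧ p * q ≤ 3 * y then
          (Ioc y (2 * y)).filter (fun n => p ∣ n + h ∧ q ∣ n + h') else ∅)) := by
    intro n hn
    rw [mem_filter] at hn
    obtain ⟨hn, p, q, hp, hq, hzp, hqp, hpK, hpq, h1, h2⟩ := hn
    rw [mem_biUnion]
    refine ⟨p, ?_, ?_⟩
    · rw [mem_filter, mem_Ioc]
      exact ⟨⟨hzp, (Nat.le_mul_of_pos_right _ hq.pos).trans hpq⟩, hp⟩
    rw [mem_biUnion]
    refine ⟨q, ?_, ?_⟩
    · rw [mem_filter, mem_Ioc]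
      exact ⟨⟨Nat.div_lt_of_lt_mul hpK, hqp.le⟩, hq⟩
    rw [if_pos ⟨hqp, hpq⟩, mem_filter]
    exact ⟨hn, h1, h2⟩
  have hy0 : (0 : ℝ) < y := by exact_mod_cast hy
  calc (((Ioc y (2 * y)).filter (fun n => ∃ p q : ℕ, p.Prime ∧ q.Prime ∧ z < p ∧ q < p ∧ p < K * q ∧
      p * q ≤ 3 * y ∧ p ∣ n + h ∧ q ∣ n + h')).card : ℝ)
      ≤ ∑ p ∈ (Ioc z (3 * y)).filter Nat.Prime, ∑ q ∈ (Ioc (p / K) p).filter Nat.Prime,
        ((if q < p ∧ p * q ≤ 3 * y then
          (Ioc y (2 * y)).filter (fun n => p ∣ n + h ∧ q ∣ n + h') else ∅).card : ℝ) := by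
        have h1 := card_le_card hsub
        have h2 := h1.trans (card_biUnion_le.trans (sum_le_sum fun p _ => card_biUnion_le))
        exact_mod_cast h2
    _ ≤ ∑ p ∈ (Ioc z (3 * y)).filter Nat.Prime, ∑ q ∈ (Ioc (p / K) p).filter Nat.Prime,
        4 * y * (1 / ((p : ℝ) * q)) := by
        apply sum_le_sum
        intro p hp
        apply sum_le_sum
        intro q hq
        rw [mem_filter] at hp hq
        have hp0 : (0 : ℝ) < p := by exact_mod_cast hp.2.pos
        have hq0 : (0 : ℝ) < q := by exact_mod_cast hq.2.pos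
        split_ifs with hc
        · refine (count_two y p q h h' hp.2 hq.2 hc.1.ne).trans ?_
          have h3 : (p : ℝ) * q ≤ 3 * y := by exact_mod_cast hc.2
          have h4 : 1 ≤ 3 * y / ((p : ℝ) * q) := by
            rw [le_div_iff₀ (by positivity)]
            linarith
          calc (y : ℝ) / (p * q) + 1 ≤ y / (p * q) + 3 * y / ((p : ℝ) * q) := by linarith
            _ = _ := by ring
        · rw [card_empty]
          push_cast
          positivity
    _ = 4 * y * ∑ p ∈ (Ioc z (3 * y)).filter Nat.Prime, ∑ q ∈ (Ioc (p / K) p).filter Nat.Prime,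
        (1 / ((p : ℝ) * q)) := by
        rw [mul_sum]
        apply sum_congr rfl
        intro p _
        rw [mul_sum]
    _ ≤ 4 * y * (C * (4 * (2 + Real.log K) / Real.log z)) := by
        apply mul_le_mul_of_nonneg_left _ (by positivity)
        apply close_sum K z hK hz (3 * y) (by omega) C hC K (fun p => p) (by exact_mod_cast hK)
        intro p
        have h3 : p < K * (p / K + 1) := Nat.lt_mul_div_succ p (by omega)
        exact_mod_cast h3.le
    _ = _ := by ring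

/-- case E2: a prime divisor slightly larger than the square root -/
lemma caseE2 (y s h : ℕ) (R : ℝ) (hy : 4 ≤ y) (hs : s ≤ y) (hR : 1 ≤ R) (hsR : (s : ℝ) ≤ R * (Nat.sqrt y + 1)) :
    (((Ioc y (2 * y)).filter (fun n => ∃ p : ℕ, p.Prime ∧ Nat.sqrt y < p ∧ p ≤ s ∧ p ∣ n + h)).card : ℝ) ≤
      16 * (y * (2 + Real.log R) / Real.log y) := by
  have hsub : (Ioc y (2 * y)).filter (fun n => ∃ p : ℕ, p.Prime ∧ Nat.sqrt y < p ∧ p ≤ s ∧ p ∣ n + h) ⊆
      ((Ioc (Nat.sqrt y) s).filter Nat.Prime).biUnion (fun p =>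
        (Ioc y (2 * y)).filter (fun n => p ∣ n + h)) := by
    intro n hn
    rw [mem_filter] at hn
    obtain ⟨hn, p, hp, h1, h2, h3⟩ := hn
    rw [mem_biUnion]
    refine ⟨p, ?_, mem_filter.2 ⟨hn, h3⟩⟩
    rw [mem_filter, mem_Ioc]
    exact ⟨⟨h1, h2⟩, hp⟩
  have hy0 : (0 : ℝ) < y := by exact_mod_cast (by omega : 0 < y)
  have hs2 : 2 ≤ Nat.sqrt y := by rw [Nat.le_sqrt']; omega
  have hly : 0 < Real.log y := Real.log_pos (by exact_mod_cast (by omega : 1 < y))
  have hlog : Real.log y / 4 ≤ Real.log (Nat.sqrt y) := by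
    have h1 : y ≤ (Nat.sqrt y) ^ 4 := by
      have h2 : y < (Nat.sqrt y + 1) ^ 2 := Nat.lt_succ_sqrt' y
      have h3 : Nat.sqrt y + 1 ≤ (Nat.sqrt y) ^ 2 := by nlinarith
      calc y ≤ (Nat.sqrt y + 1) ^ 2 := h2.le
        _ ≤ ((Nat.sqrt y) ^ 2) ^ 2 := Nat.pow_le_pow_left h3 2
        _ = _ := by ring
    have h2 : Real.log y ≤ Real.log (((Nat.sqrt y : ℕ) : ℝ) ^ 4) :=
      Real.log_le_log hy0 (by exact_mod_cast h1)
    rw [Real.log_pow] at h2
    push_cast at h2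
    linarith
  have hlR : 0 ≤ Real.log R := Real.log_nonneg hR
  calc (((Ioc y (2 * y)).filter (fun n => ∃ p : ℕ, p.Prime ∧ Nat.sqrt y < p ∧ p ≤ s ∧ p ∣ n + h)).card : ℝ)
      ≤ ∑ p ∈ (Ioc (Nat.sqrt y) s).filter Nat.Prime, (((Ioc y (2 * y)).filter (fun n => p ∣ n + h)).card : ℝ) := by
        exact_mod_cast (card_le_card hsub).trans card_biUnion_le
    _ ≤ ∑ p ∈ (Ioc (Nat.sqrt y) s).filter Nat.Prime, 2 * y * ((1 : ℝ) / p) := by
        apply sum_le_sum
        intro p hp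
        rw [mem_filter, mem_Ioc] at hp
        have hp0 : (0 : ℝ) < p := by exact_mod_cast hp.2.pos
        refine (count_one y p h hp.2.pos).trans ?_
        have h3 : (1 : ℝ) ≤ y / p := by
          rw [le_div_iff₀ hp0, one_mul]
          exact_mod_cast hp.1.2.trans hs
        calc (y : ℝ) / p + 1 ≤ y / p + y / p := by linarith
          _ = _ := by ring
    _ = 2 * y * ∑ p ∈ (Ioc (Nat.sqrt y) s).filter Nat.Prime, ((1 : ℝ) / p) := by rw [mul_sum]
    _ ≤ 2 * y * (2 * (2 + Real.log R) / Real.log (Nat.sqrt y)) :=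
        mul_le_mul_of_nonneg_left (primes_interval _ _ R hs2 hR hsR) (by positivity)
    _ ≤ 2 * y * (2 * (2 + Real.log R) / (Real.log y / 4)) := by
        apply mul_le_mul_of_nonneg_left _ (by positivity)
        exact div_le_div_of_nonneg_left (by positivity) (by positivity) hlog
    _ = _ := by field_simp; ring

/-- case E3: the sieve -/
lemma caseE3 (H : ℕ) (hH : 1 ≤ H) : ∃ C W₀ : ℝ, 1 ≤ C ∧ 3 ≤ W₀ ∧ ∀ h h' : ℕ, h ≤ H → h' ≤ H → h ≠ h' →
    ∀ y K s : ℕ, ∀ W : ℝ, 1 ≤ y → 1 ≤ K → 1 ≤ s → H ≤ y → W₀ ≤ W → 9 * (K : ℝ) * y * W ≤ (s : ℝ) ^ 2 →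
    (((Ioc y (2 * y)).filter (fun n => ∃ p q : ℕ, p.Prime ∧ q.Prime ∧ s < p ∧ q < p ∧ p < K * q ∧
      p ∣ n + h ∧ q ∣ n + h')).card : ℝ) ≤
      C * (y * (2 + Real.log (3 * y)) * (2 + Real.log (4 * K)) / Real.log W ^ 2) := by
  obtain ⟨C, Y₀, hC, hY₀, hpc⟩ := pair_count H
  obtain ⟨C₂, hC₂, hab⟩ := sum_ab C (by linarith)
  refine ⟨C * (2 * H) * C₂, Y₀, ?_, hY₀, ?_⟩
  · have hH1 : (1 : ℝ) ≤ H := by exact_mod_cast hH
    have : 1 ≤ C * (2 * H) := by nlinarith
    nlinarith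
  intro h h' hh hh' hne y K s W hy hK hs hHy hW hWs
  have hy0 : (0 : ℝ) < y := by exact_mod_cast hy
  have hK0 : (0 : ℝ) < K := by exact_mod_cast hK
  have hH0 : (0 : ℝ) < H := by exact_mod_cast hH
  have hs0 : (0 : ℝ) < s := by exact_mod_cast hs
  have hlW : 0 < Real.log W := Real.log_pos (by linarith)
  set S := (Ioc y (2 * y)).filter (fun n => ∃ p q : ℕ, p.Prime ∧ q.Prime ∧ s < p ∧ q < p ∧ p < K * q ∧
      p ∣ n + h ∧ q ∣ n + h') with hS
  set G : ℕ → ℕ → Finset ℕ := fun a b => if a * s ≤ 3 * y then (Icc 1 (2 * y)).filter (fun n : ℕ =>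
    ∃ p q : ℕ, p.Prime ∧ q.Prime ∧ n + h = a * p ∧ n + h' = b * q) else ∅ with hG
  have hsub : S ⊆ (Icc 1 (3 * y)).biUnion (fun a => ((Icc 1 (3 * y)).filter (fun b : ℕ => a < 2 * b ∧
      (b : ℝ) ≤ 2 * K * a)).biUnion (fun b => G a b)) := by
    intro n hn
    rw [hS, mem_filter, mem_Ioc] at hn
    obtain ⟨hn, p, q, hp, hq, hsp, hqp, hpK, ⟨a, ha⟩, ⟨b, hb⟩⟩ := hn
    have ha0 : 1 ≤ a := Nat.pos_of_ne_zero (by rintro rfl; omega)
    have hb0 : 1 ≤ b := Nat.pos_of_ne_zero (by rintro rfl; omega)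
    have hap : a * p = n + h := by rw [mul_comm]; exact ha.symm
    have hbq : b * q = n + h' := by rw [mul_comm]; exact hb.symm
    have ha3 : a ≤ 3 * y := (Nat.le_mul_of_pos_right a hp.pos).trans (by omega)
    have hb3 : b ≤ 3 * y := (Nat.le_mul_of_pos_right b hq.pos).trans (by omega)
    have has : a * s ≤ 3 * y := (Nat.mul_le_mul_left a hsp.le).trans (by omega)
    have h1 : a < 2 * b := by
      by_contra h2
      push Not at h2
      have h3 : 2 * b * q ≤ a * p := Nat.mul_le_mul h2 hqp.le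
      have h4 : 2 * b * q = 2 * (n + h') := by rw [mul_assoc, hbq]
      omega
    have h2 : b ≤ 2 * K * a := by
      by_contra h2
      push Not at h2
      have h3 : (2 * K * a) * q < b * q := Nat.mul_lt_mul_of_pos_right h2 hq.pos
      have h4 : 2 * (a * p) ≤ 2 * K * a * q := by
        calc 2 * (a * p) ≤ 2 * (a * (K * q)) := by
              apply Nat.mul_le_mul_left
              exact Nat.mul_le_mul_left _ hpK.le
          _ = _ := by ring
      omega
    rw [mem_biUnion]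
    refine ⟨a, mem_Icc.2 ⟨ha0, ha3⟩, ?_⟩
    rw [mem_biUnion]
    refine ⟨b, ?_, ?_⟩
    · rw [mem_filter, mem_Icc]
      exact ⟨⟨hb0, hb3⟩, h1, by exact_mod_cast h2⟩
    · rw [hG]
      simp only
      rw [if_pos has, mem_filter, mem_Icc]
      exact ⟨⟨by omega, hn.2⟩, p, q, hp, hq, hap.symm, hbq.symm⟩
  have hGc : ∀ a ∈ Icc 1 (3 * y), ∀ b ∈ (Icc 1 (3 * y)).filter (fun b : ℕ => a < 2 * b ∧
      (b : ℝ) ≤ 2 * K * a), ((G a b).card : ℝ) ≤
      C * (2 * H) * y / Real.log W ^ 2 * (Real.exp (C * (sg a + sg b)) / (a * b)) := by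
    intro a ha b hb
    rw [mem_Icc] at ha
    rw [mem_filter, mem_Icc] at hb
    have ha0 : (0 : ℝ) < a := by exact_mod_cast (by omega : 0 < a)
    have hb0 : (0 : ℝ) < b := by exact_mod_cast (by omega : 0 < b)
    rw [hG]
    simp only
    split_ifs with has
    · have has' : (a : ℝ) * s ≤ 3 * y := by exact_mod_cast has
      set T : ℝ := H * (2 * y) / (a * b) with hT
      have hTW : W ≤ T := by
        rw [hT, le_div_iff₀ (by positivity)]
        have h1 : (a : ℝ) * b ≤ 2 * K * a ^ 2 := by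
          calc (a : ℝ) * b ≤ a * (2 * K * a) := mul_le_mul_of_nonneg_left hb.2.2 ha0.le
            _ = _ := by ring
        have h2 : ((a : ℝ) * s) ^ 2 ≤ (3 * y) ^ 2 := pow_le_pow_left₀ (by positivity) has' 2
        have h3 : 9 * (K : ℝ) * y * W * (a : ℝ) ^ 2 ≤ 9 * (y : ℝ) ^ 2 := by
          calc 9 * (K : ℝ) * y * W * (a : ℝ) ^ 2 ≤ (s : ℝ) ^ 2 * (a : ℝ) ^ 2 :=
                mul_le_mul_of_nonneg_right hWs (by positivity)
            _ = ((a : ℝ) * s) ^ 2 := by ring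
            _ ≤ (3 * y) ^ 2 := h2
            _ = _ := by ring
        have h4 : (K : ℝ) * W * (a : ℝ) ^ 2 ≤ y := by
          have h5 : (9 * (y : ℝ)) * ((K : ℝ) * W * (a : ℝ) ^ 2) ≤ (9 * (y : ℝ)) * y := by
            calc (9 * (y : ℝ)) * ((K : ℝ) * W * (a : ℝ) ^ 2) = 9 * (K : ℝ) * y * W * (a : ℝ) ^ 2 := by ring
              _ ≤ 9 * (y : ℝ) ^ 2 := h3
              _ = _ := by ring
          exact le_of_mul_le_mul_left h5 (by positivity)
        have hW0 : 0 < W := by linarith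
        calc W * (a * b) ≤ W * (2 * K * a ^ 2) := mul_le_mul_of_nonneg_left h1 hW0.le
          _ = 2 * ((K : ℝ) * W * (a : ℝ) ^ 2) := by ring
          _ ≤ 2 * y := by linarith
          _ ≤ H * (2 * y) := by
            have : (1 : ℝ) ≤ H := by exact_mod_cast hH
            nlinarith
      have h1 := hpc h h' hh hh' hne a b (2 * y) ha.1 hb.1.1 T (hW.trans hTW) (by
        rw [hT]
        push_cast
        apply le_of_eq
        field_simp)
      refine h1.trans ?_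
      have hlT : Real.log W ≤ Real.log T := Real.log_le_log (by linarith) hTW
      have hT0 : 0 < T := by linarith
      calc C * Real.exp (C * (sg a + sg b)) * (T / Real.log T ^ 2)
          ≤ C * Real.exp (C * (sg a + sg b)) * (T / Real.log W ^ 2) := by
            apply mul_le_mul_of_nonneg_left _ (by positivity)
            apply div_le_div_of_nonneg_left hT0.le (by positivity)
            exact pow_le_pow_left₀ hlW.le hlT 2
        _ = _ := by rw [hT]; field_simp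
    · rw [card_empty]
      push_cast
      positivity
  calc (S.card : ℝ) ≤ ∑ a ∈ Icc 1 (3 * y), ∑ b ∈ (Icc 1 (3 * y)).filter (fun b : ℕ => a < 2 * b ∧
      (b : ℝ) ≤ 2 * K * a), ((G a b).card : ℝ) := by
        have h1 := (card_le_card hsub).trans (card_biUnion_le.trans (sum_le_sum fun a _ => card_biUnion_le))
        exact_mod_cast h1
    _ ≤ ∑ a ∈ Icc 1 (3 * y), ∑ b ∈ (Icc 1 (3 * y)).filter (fun b : ℕ => a < 2 * b ∧
      (b : ℝ) ≤ 2 * K * a), C * (2 * H) * y / Real.log W ^ 2 * (Real.exp (C * (sg a + sg b)) / (a * b)) :=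
        sum_le_sum fun a ha => sum_le_sum fun b hb => hGc a ha b hb
    _ = C * (2 * H) * y / Real.log W ^ 2 * ∑ a ∈ Icc 1 (3 * y), ∑ b ∈ (Icc 1 (3 * y)).filter (fun b : ℕ =>
      a < 2 * b ∧ (b : ℝ) ≤ 2 * K * a), (Real.exp (C * (sg a + sg b)) / (a * b)) := by
        rw [mul_sum]
        apply sum_congr rfl
        intro a _
        rw [mul_sum]
    _ ≤ C * (2 * H) * y / Real.log W ^ 2 * (C₂ * (2 + Real.log ((3 * y : ℕ) : ℝ)) * (2 + Real.log (4 * K))) := by
        apply mul_le_mul_of_nonneg_left _ (by positivity)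
        exact hab (3 * y) (3 * y) K (by omega) (by exact_mod_cast hK)
    _ = _ := by push_cast; ring

end Pool.Agent.L5helper4.ML
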