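import Mathlib
import Pool.Agent.L5helper4.ML.M4

/-! The exceptions in a dyadic interval: total. -/

set_option autoImplicit false

namespace Pool.Agent.L5helper4.ML

open Finset Filter Classical
open Pool.Agent.Y851.DK (sg)

lemma log_le_sqrt {E : ℝ} (hE : 1 ≤ E) : 1 + Real.log E ≤ 3 * √E := by
  have h1 : Real.log (√E) ≤ √E - 1 := Real.log_le_sub_one_of_pos (Real.sqrt_pos.2 (by linarith))
  rw [Real.log_sqrt (by linarith)] at h1
  have h2 : 1 ≤ √E := by rw [Real.one_le_sqrt]; exact hE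
  linarith

/-- the count in a dyadic interval in terms of the parameters -/
lemma scale0 (T : Finset ℕ) (hT : T.Nonempty) : ∃ C W₀ : ℝ, 1 ≤ C ∧ 3 ≤ W₀ ∧ ∀ y K z s : ℕ, ∀ W R C₁ : ℝ,
    T.sup id + 1 ≤ y → T.sup id ≤ z → 4 ≤ y → 1 ≤ K → (2 * K) ^ 2 ≤ z → 1 ≤ s → s ≤ y → 1 ≤ R →
    (s : ℝ) ≤ R * (Nat.sqrt y + 1) → W₀ ≤ W → 9 * (K : ℝ) * y * W ≤ (s : ℝ) ^ 2 →
    ∑ p ∈ (Icc 1 (3 * y)).filter Nat.Prime, (1 : ℝ) / p ≤ C₁ →
    (((Ioc y (2 * y)).filter (fun n => ¬ ∃ P, Dom K z (RR T n) P)).card : ℝ) ≤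
      C * (√y + y * Real.log z * Real.exp (-(Real.log y / (8 * Real.log z))) + y / z +
        y * (C₁ * (2 + Real.log K) / Real.log z) + y * (2 + Real.log R) / Real.log y +
        y * (2 + Real.log (3 * y)) * (2 + Real.log (4 * K)) / Real.log W ^ 2) := by
  obtain ⟨h₀, hh₀⟩ := hT
  set H := T.sup id + 1 with hHdef
  have hTH : ∀ h ∈ T, h ≤ T.sup id := fun h hh => le_sup (f := id) hh
  obtain ⟨CA, hCA, hA⟩ := caseA
  obtain ⟨CE, W₀, hCE, hW₀, hE⟩ := caseE3 H (by omega)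
  obtain ⟨t, ht⟩ : ∃ t : ℝ, t = (T.card : ℝ) := ⟨_, rfl⟩
  have ht1 : 1 ≤ t := by rw [ht]; exact_mod_cast card_pos.2 ⟨h₀, hh₀⟩
  have htt : t ≤ t * t := by nlinarith
  refine ⟨CA + 16 * (t * t) + t * t * CE, W₀, by nlinarith [mul_pos (by linarith : 0 < t) (by linarith : 0 < t)], hW₀, ?_⟩
  intro y K z s W R C₁ hy hz hy4 hK hKz hs hsy hR hsR hW hWs hC₁
  have hz4 : 4 ≤ z := by nlinarith
  have hsub : (Ioc y (2 * y)).filter (fun n => ¬ ∃ P, Dom K z (RR T n) P) ⊆
      (Ioc y (2 * y)).filter (fun n => ∀ p : ℕ, p.Prime → p ∣ n + h₀ → p ≤ z) ∪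
      (T.biUnion fun h => (Ioc y (2 * y)).filter (fun n => ∃ p : ℕ, p.Prime ∧ z < p ∧ p ^ 2 ∣ n + h)) ∪
      (T.biUnion fun h => T.biUnion fun h' => (Ioc y (2 * y)).filter (fun n => ∃ p q : ℕ, p.Prime ∧ q.Prime ∧
        z < p ∧ q < p ∧ p < K * q ∧ p * q ≤ 3 * y ∧ p ∣ n + h ∧ q ∣ n + h')) ∪
      (T.biUnion fun h => (Ioc y (2 * y)).filter (fun n => ∃ p : ℕ, p.Prime ∧ Nat.sqrt y < p ∧ p ≤ s ∧ p ∣ n + h)) ∪
      (T.biUnion fun h => T.biUnion fun h' => if h ≠ h' then (Ioc y (2 * y)).filter (fun n => ∃ p q : ℕ,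
        p.Prime ∧ q.Prime ∧ s < p ∧ q < p ∧ p < K * q ∧ p ∣ n + h ∧ q ∣ n + h') else ∅) := by
    intro n hn
    rw [mem_filter] at hn
    obtain ⟨hn, hbad⟩ := hn
    have hn' := mem_Ioc.1 hn
    rcases bad_cases (by omega) hTH hz hh₀ hbad with h1 | ⟨h, hh, p, h1⟩ |
      ⟨h, hh, h', hh', p, q, hp, hq, hzp, hqp, hpK, hph, hqh⟩
    · simp only [mem_union]
      exact Or.inl (Or.inl (Or.inl (Or.inl (mem_filter.2 ⟨hn, h1⟩))))
    · simp only [mem_union]
      exact Or.inl (Or.inl (Or.inl (Or.inr (mem_biUnion.2 ⟨h, hh, mem_filter.2 ⟨hn, p, h1⟩⟩))))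
    · by_cases hpq : p * q ≤ 3 * y
      · simp only [mem_union]
        refine Or.inl (Or.inl (Or.inr (mem_biUnion.2 ⟨h, hh, mem_biUnion.2 ⟨h', hh', mem_filter.2 ⟨hn, p, q, ?_⟩⟩⟩)))
        exact ⟨hp, hq, hzp, hqp, hpK, hpq, hph, hqh⟩
      · have hhT := hTH h hh
        have hhT' := hTH h' hh'
        have hne : h ≠ h' := by
          rintro rfl
          apply hpq
          have h2 : p * q ∣ n + h := Nat.Coprime.mul_dvd_of_dvd_of_dvd
            ((Nat.coprime_primes hp hq).2 (by omega)) hph hqh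
          have := Nat.le_of_dvd (by omega) h2
          omega
        have hsq : Nat.sqrt y < p := by
          by_contra h2
          push Not at h2
          have h3 : p * q ≤ Nat.sqrt y * Nat.sqrt y := Nat.mul_le_mul h2 (by omega)
          have h4 := Nat.sqrt_le y
          omega
        by_cases hps : p ≤ s
        · simp only [mem_union]
          exact Or.inl (Or.inr (mem_biUnion.2 ⟨h, hh, mem_filter.2 ⟨hn, p, hp, hsq, hps, hph⟩⟩))
        · simp only [mem_union]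
          refine Or.inr (mem_biUnion.2 ⟨h, hh, mem_biUnion.2 ⟨h', hh', ?_⟩⟩)
          rw [if_pos hne, mem_filter]
          exact ⟨hn, p, q, hp, hq, by omega, hqp, hpK, hph, hqh⟩
  have hy0 : (0 : ℝ) < y := by exact_mod_cast (by omega : 0 < y)
  have hlz : 0 < Real.log z := Real.log_pos (by exact_mod_cast (by omega : 1 < z))
  have hly : 0 < Real.log y := Real.log_pos (by exact_mod_cast (by omega : 1 < y))
  have hlR : 0 ≤ Real.log R := Real.log_nonneg hR
  have hlK : 0 ≤ Real.log K := Real.log_nonneg (by exact_mod_cast hK)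
  have hK1 : (1 : ℝ) ≤ K := by exact_mod_cast hK
  have hl4K : 0 ≤ Real.log (4 * K) := Real.log_nonneg (by linarith)
  have hl3y : 0 ≤ Real.log (3 * y) := Real.log_nonneg (by
    have : (1 : ℝ) ≤ y := by exact_mod_cast (by omega : 1 ≤ y)
    linarith)
  have hC₁0 : 0 ≤ C₁ := le_trans (sum_nonneg fun _ _ => by positivity) hC₁
  have hz0 : (0 : ℝ) < z := by exact_mod_cast (by omega : 0 < z)
  set a1 : ℝ := √y + y * Real.log z * Real.exp (-(Real.log y / (8 * Real.log z))) with ha1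
  set a2 : ℝ := y / z with ha2
  set a3 : ℝ := y * (C₁ * (2 + Real.log K) / Real.log z) with ha3
  set a4 : ℝ := y * (2 + Real.log R) / Real.log y with ha4
  set a5 : ℝ := y * (2 + Real.log (3 * y)) * (2 + Real.log (4 * K)) / Real.log W ^ 2 with ha5
  have p1 : 0 ≤ a1 := by positivity
  have p2 : 0 ≤ a2 := by positivity
  have p3 : 0 ≤ a3 := by positivity
  have p4 : 0 ≤ a4 := by positivity
  have p5 : 0 ≤ a5 := by positivity
  have q1 := hA y z h₀ (by omega) (by omega) (by have := hTH h₀ hh₀; omega)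
  have q2 : ((T.biUnion fun h => (Ioc y (2 * y)).filter (fun n => ∃ p : ℕ, p.Prime ∧ z < p ∧ p ^ 2 ∣ n + h)).card : ℝ) ≤
      t * (6 * a2) := by
    calc _ ≤ ∑ h ∈ T, (((Ioc y (2 * y)).filter (fun n => ∃ p : ℕ, p.Prime ∧ z < p ∧ p ^ 2 ∣ n + h)).card : ℝ) := by
          exact_mod_cast card_biUnion_le
      _ ≤ ∑ h ∈ T, 6 * a2 := by
          apply sum_le_sum
          intro h hh
          refine (caseB y z h (by omega) (by have := hTH h hh; omega)).trans (le_of_eq ?_)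
          rw [ha2]; ring
      _ = _ := by rw [sum_const, nsmul_eq_mul, ← ht]
  have q3 : ((T.biUnion fun h => T.biUnion fun h' => (Ioc y (2 * y)).filter (fun n => ∃ p q : ℕ, p.Prime ∧ q.Prime ∧
        z < p ∧ q < p ∧ p < K * q ∧ p * q ≤ 3 * y ∧ p ∣ n + h ∧ q ∣ n + h')).card : ℝ) ≤ t * (t * (16 * a3)) := by
    calc _ ≤ ∑ h ∈ T, ∑ h' ∈ T, (((Ioc y (2 * y)).filter (fun n => ∃ p q : ℕ, p.Prime ∧ q.Prime ∧
        z < p ∧ q < p ∧ p < K * q ∧ p * q ≤ 3 * y ∧ p ∣ n + h ∧ q ∣ n + h')).card : ℝ) := by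
          have := (card_biUnion_le (s := T) (t := fun h => T.biUnion fun h' => (Ioc y (2 * y)).filter
            (fun n => ∃ p q : ℕ, p.Prime ∧ q.Prime ∧
            z < p ∧ q < p ∧ p < K * q ∧ p * q ≤ 3 * y ∧ p ∣ n + h ∧ q ∣ n + h'))).trans
            (sum_le_sum fun h _ => card_biUnion_le)
          exact_mod_cast this
      _ ≤ ∑ h ∈ T, ∑ h' ∈ T, 16 * a3 := by
          apply sum_le_sum
          intro h hh
          apply sum_le_sum
          intro h' hh'
          exact caseE1 y z K h h' hK hKz (by omega) C₁ hC₁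
      _ = _ := by rw [sum_const, sum_const, nsmul_eq_mul, nsmul_eq_mul, ← ht]
  have q4 : ((T.biUnion fun h => (Ioc y (2 * y)).filter (fun n => ∃ p : ℕ, p.Prime ∧ Nat.sqrt y < p ∧ p ≤ s ∧
      p ∣ n + h)).card : ℝ) ≤ t * (16 * a4) := by
    calc _ ≤ ∑ h ∈ T, (((Ioc y (2 * y)).filter (fun n => ∃ p : ℕ, p.Prime ∧ Nat.sqrt y < p ∧ p ≤ s ∧
      p ∣ n + h)).card : ℝ) := by
          exact_mod_cast card_biUnion_le
      _ ≤ ∑ h ∈ T, 16 * a4 := by
          apply sum_le_sum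
          intro h hh
          exact caseE2 y s h R hy4 hsy hR hsR
      _ = _ := by rw [sum_const, nsmul_eq_mul, ← ht]
  have q5 : ((T.biUnion fun h => T.biUnion fun h' => if h ≠ h' then (Ioc y (2 * y)).filter (fun n => ∃ p q : ℕ,
        p.Prime ∧ q.Prime ∧ s < p ∧ q < p ∧ p < K * q ∧ p ∣ n + h ∧ q ∣ n + h') else ∅).card : ℝ) ≤
      t * (t * (CE * a5)) := by
    calc _ ≤ ∑ h ∈ T, ∑ h' ∈ T, ((if h ≠ h' then (Ioc y (2 * y)).filter (fun n => ∃ p q : ℕ,
        p.Prime ∧ q.Prime ∧ s < p ∧ q < p ∧ p < K * q ∧ p ∣ n + h ∧ q ∣ n + h') else ∅).card : ℝ) := by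
          have := (card_biUnion_le (s := T) (t := fun h => T.biUnion fun h' => if h ≠ h' then (Ioc y (2 * y)).filter
            (fun n => ∃ p q : ℕ, p.Prime ∧ q.Prime ∧ s < p ∧ q < p ∧ p < K * q ∧ p ∣ n + h ∧ q ∣ n + h') else ∅)).trans
            (sum_le_sum fun h _ => card_biUnion_le)
          exact_mod_cast this
      _ ≤ ∑ h ∈ T, ∑ h' ∈ T, CE * a5 := by
          apply sum_le_sum
          intro h hh
          apply sum_le_sum
          intro h' hh'
          split_ifs with hne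
          · have e1 := hTH h hh
            have e2 := hTH h' hh'
            exact hE h h' (by omega) (by omega) hne y K s W (by omega) hK hs hy hW hWs
          · rw [card_empty]
            push_cast
            positivity
      _ = _ := by rw [sum_const, sum_const, nsmul_eq_mul, nsmul_eq_mul, ← ht]
  have hcard := (card_le_card hsub).trans ((card_union_le _ _).trans (add_le_add_left ((card_union_le _ _).trans
    (add_le_add_left ((card_union_le _ _).trans (add_le_add_left (card_union_le _ _) _)) _)) _))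
  have hcard' : (((Ioc y (2 * y)).filter (fun n => ¬ ∃ P, Dom K z (RR T n) P)).card : ℝ) ≤
      CA * a1 + t * (6 * a2) + t * (t * (16 * a3)) + t * (16 * a4) + t * (t * (CE * a5)) := by
    have hc2 := (Nat.cast_le (α := ℝ)).2 hcard
    simp only [Nat.cast_add] at hc2
    linarith
  refine hcard'.trans ?_
  have r1 : CA * a1 ≤ (CA + 16 * (t * t) + t * t * CE) * a1 :=
    mul_le_mul_of_nonneg_right (by nlinarith [mul_nonneg (by positivity : 0 ≤ t * t) (by linarith : 0 ≤ CE), mul_nonneg (by linarith : 0 ≤ t) (by linarith : 0 ≤ t)]) p1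
  have hpos : 0 ≤ t * t := by positivity
  have hpos2 : 0 ≤ t * t * CE := by positivity
  have r2 : t * (6 * a2) ≤ (CA + 16 * (t * t) + t * t * CE) * a2 := by
    calc t * (6 * a2) = (6 * t) * a2 := by ring
      _ ≤ _ := mul_le_mul_of_nonneg_right (by linarith) p2
  have r3 : t * (t * (16 * a3)) ≤ (CA + 16 * (t * t) + t * t * CE) * a3 := by
    calc t * (t * (16 * a3)) = (16 * (t * t)) * a3 := by ring
      _ ≤ _ := mul_le_mul_of_nonneg_right (by linarith) p3
  have r4 : t * (16 * a4) ≤ (CA + 16 * (t * t) + t * t * CE) * a4 := by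
    calc t * (16 * a4) = (16 * t) * a4 := by ring
      _ ≤ _ := mul_le_mul_of_nonneg_right (by linarith) p4
  have r5 : t * (t * (CE * a5)) ≤ (CA + 16 * (t * t) + t * t * CE) * a5 := by
    calc t * (t * (CE * a5)) = (t * t * CE) * a5 := by ring
      _ ≤ _ := mul_le_mul_of_nonneg_right (by linarith) p5
  calc _ ≤ (CA + 16 * (t * t) + t * t * CE) * a1 + (CA + 16 * (t * t) + t * t * CE) * a2 +
        (CA + 16 * (t * t) + t * t * CE) * a3 + (CA + 16 * (t * t) + t * t * CE) * a4 +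
        (CA + 16 * (t * t) + t * t * CE) * a5 := by linarith
    _ = _ := by ring

end Pool.Agent.L5helper4.ML
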