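import Mathlib
import Pool.Agent.L5helper4.ML.M5

/-! The exceptions in a dyadic interval: one parameter. -/

set_option autoImplicit false

namespace Pool.Agent.L5helper4.ML

open Finset Filter Classical

lemma ev_params (B H : ℕ) (W₀ : ℝ) : ∀ᶠ E : ℕ in atTop, 2 ≤ E ∧ H ≤ 2 ^ E ^ 2 ∧ (2 * E ^ B) ^ 2 ≤ 2 ^ E ^ 2 ∧
    H + 5 ≤ E ∧ 36 * (E : ℝ) ^ B ≤ Real.exp ((E : ℝ) ^ 3) ∧ W₀ ≤ Real.exp ((E : ℝ) ^ 3) := by
  have hexp : ∀ᶠ x : ℝ in atTop, x ^ (2 * B + 1) ≤ Real.exp x := by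
    have h1 := (Real.isLittleO_pow_exp_atTop (n := 2 * B + 1)).bound (by norm_num : (0 : ℝ) < 1)
    filter_upwards [h1, eventually_ge_atTop 0] with x h1 h2
    rw [one_mul, Real.norm_eq_abs, Real.norm_eq_abs, abs_of_nonneg (by positivity),
      abs_of_nonneg (Real.exp_pos _).le] at h1
    exact h1
  have hexp2 : ∀ᶠ x : ℝ in atTop, 4 * x ^ (2 * B) ≤ Real.exp (x * Real.log 2) := by
    have h1 := (isLittleO_pow_exp_pos_mul_atTop (2 * B) (b := Real.log 2) (Real.log_pos (by norm_num))).bound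
      (by norm_num : (0 : ℝ) < 1 / 4)
    filter_upwards [h1, eventually_ge_atTop 0] with x h1 h2
    rw [Real.norm_eq_abs, Real.norm_eq_abs, abs_of_nonneg (by positivity),
      abs_of_nonneg (Real.exp_pos _).le, mul_comm (Real.log 2) x] at h1
    linarith
  have hnat := tendsto_natCast_atTop_atTop (R := ℝ)
  filter_upwards [eventually_ge_atTop (H + 36), hnat.eventually hexp, hnat.eventually hexp2,
    hnat.eventually_ge_atTop (W₀)] with E h1 h2 h3 h4
  have hE1 : (36 : ℝ) ≤ E := by exact_mod_cast (by omega : 36 ≤ E)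
  have hE3 : (E : ℝ) ≤ (E : ℝ) ^ 3 := by nlinarith [sq_nonneg (E : ℝ)]
  have hexpE : Real.exp E ≤ Real.exp ((E : ℝ) ^ 3) := Real.exp_le_exp.2 hE3
  have hlt : E < 2 ^ E := Nat.lt_two_pow_self
  have hEE : 2 ^ E ≤ 2 ^ E ^ 2 := Nat.pow_le_pow_right (by norm_num) (by nlinarith)
  refine ⟨by omega, by omega, ?_, by omega, ?_, ?_⟩
  · have h5 : ((2 * E ^ B) ^ 2 : ℝ) ≤ (2 : ℝ) ^ E := by
      have h6 : Real.exp (E * Real.log 2) = (2 : ℝ) ^ E := by
        rw [mul_comm, ← Real.rpow_def_of_pos (by norm_num), Real.rpow_natCast]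
      rw [← h6]
      refine le_trans (le_of_eq ?_) h3
      ring
    have h7 : (2 * E ^ B) ^ 2 ≤ 2 ^ E := by exact_mod_cast h5
    exact h7.trans hEE
  · have h5 : 36 * (E : ℝ) ^ B ≤ (E : ℝ) ^ (2 * B + 1) := by
      have h6 : (1 : ℝ) ≤ (E : ℝ) ^ B := one_le_pow₀ (by linarith)
      calc 36 * (E : ℝ) ^ B ≤ E * (E : ℝ) ^ B := by nlinarith
        _ ≤ E * (E : ℝ) ^ B * (E : ℝ) ^ B := le_mul_of_one_le_right (by positivity) h6
        _ = _ := by ring
    exact h5.trans (h2.trans hexpE)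
  · have h5 : (E : ℝ) ≤ Real.exp E := by
      have := Real.add_one_le_exp (E : ℝ)
      linarith
    linarith

theorem scale (T : Finset ℕ) (hT : T.Nonempty) (B : ℕ) : ∃ C : ℝ, 1 ≤ C ∧ ∃ E₀ : ℕ, ∀ E : ℕ, E₀ ≤ E →
    2 ≤ E ∧ T.sup id ≤ E ∧ (2 * E ^ B) ^ 2 ≤ 2 ^ E ^ 2 ∧ ∀ y : ℕ, (E : ℝ) ^ 4 ≤ Real.log y → Real.log y ≤ 256 * (E : ℝ) ^ 8 →
    (((Ioc y (2 * y)).filter (fun n => ¬ ∃ P, Dom (E ^ B) (2 ^ E ^ 2) (RR T n) P)).card : ℝ) ≤ C * (y / E) := by
  obtain ⟨C, W₀, hC, hW₀, hs⟩ := scale0 T hT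
  obtain ⟨C₀, hC₀, hsum⟩ := sum_inv
  obtain ⟨E₀, hE₀⟩ := eventually_atTop.1 (ev_params B (T.sup id) W₀)
  refine ⟨C * (134 + 18 * (8 + C₀) * (2 + B) + 15 * (4 + B)), by
    have : (0 : ℝ) ≤ 18 * (8 + C₀) * (2 + B) + 15 * (4 + B) := by positivity
    nlinarith, E₀, fun E hE => ?_⟩
  obtain ⟨hE2, hH, hK, hH5, h36, hWE⟩ := hE₀ E hE
  refine ⟨hE2, by omega, hK, fun y hy1 hy2 => ?_⟩
  have hEr : (2 : ℝ) ≤ E := by exact_mod_cast hE2
  have hE0 : (0 : ℝ) < E := by linarith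
  have hE4 : (16 : ℝ) ≤ (E : ℝ) ^ 4 := by
    calc (16 : ℝ) = 2 ^ 4 := by norm_num
      _ ≤ (E : ℝ) ^ 4 := pow_le_pow_left₀ (by norm_num) hEr 4
  obtain ⟨Y, hY⟩ : ∃ Y : ℝ, Y = Real.log y := ⟨_, rfl⟩
  rw [← hY] at hy1 hy2
  have hY16 : 16 ≤ Y := hE4.trans hy1
  have hyn : y ≠ 0 := by
    rintro rfl
    rw [Nat.cast_zero, Real.log_zero] at hY
    linarith
  have hy0 : (0 : ℝ) < y := by exact_mod_cast Nat.pos_of_ne_zero hyn
  have hyexp : (y : ℝ) = Real.exp Y := by rw [hY, Real.exp_log hy0]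
  have hyE : (E : ℝ) ≤ y := by
    have h1 := Real.add_one_le_exp Y
    have h2 : (E : ℝ) ≤ (E : ℝ) ^ 4 := by
      calc (E : ℝ) = (E : ℝ) ^ 1 := (pow_one _).symm
        _ ≤ (E : ℝ) ^ 4 := pow_le_pow_right₀ (by linarith) (by norm_num)
    rw [← hyexp] at h1
    linarith
  have hyEn : E ≤ y := by exact_mod_cast hyE
  have hYE : (E : ℝ) ^ 3 ≤ Y / E := by
    rw [le_div_iff₀ hE0]
    calc (E : ℝ) ^ 3 * E = (E : ℝ) ^ 4 := by ring
      _ ≤ Y := hy1
  set s : ℕ := ⌊Real.exp ((1 / 2 + 1 / E) * Y)⌋₊ with hsdef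
  have hx1 : 1 ≤ Real.exp ((1 / 2 + 1 / E) * Y) := Real.one_le_exp (by positivity)
  have hs1 : 1 ≤ s := by rw [hsdef, Nat.one_le_floor_iff]; exact hx1
  have hsle : (s : ℝ) ≤ Real.exp ((1 / 2 + 1 / E) * Y) := Nat.floor_le (by positivity)
  have hsge : Real.exp ((1 / 2 + 1 / E) * Y) / 2 ≤ s := by
    have h1 := Nat.lt_floor_add_one (Real.exp ((1 / 2 + 1 / E) * Y))
    rw [← hsdef] at h1
    have h2 : (1 : ℝ) ≤ s := by exact_mod_cast hs1
    linarith
  have hEinv : 1 / (E : ℝ) ≤ 1 / 2 := one_div_le_one_div_of_le (by norm_num) hEr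
  have hsy : s ≤ y := by
    have h1 : (s : ℝ) ≤ y := by
      refine hsle.trans ?_
      rw [hyexp]
      apply Real.exp_le_exp.2
      nlinarith
    exact_mod_cast h1
  have hlz : Real.log ((2 ^ E ^ 2 : ℕ) : ℝ) = (E : ℝ) ^ 2 * Real.log 2 := by
    push_cast
    rw [Real.log_pow]
    push_cast
    rfl
  have hlog2a := Real.log_two_gt_d9
  have hlog2b := Real.log_two_lt_d9
  have hE2pos : (0 : ℝ) < (E : ℝ) ^ 2 := by positivity
  have hlz1 : (E : ℝ) ^ 2 / 2 ≤ Real.log ((2 ^ E ^ 2 : ℕ) : ℝ) := by rw [hlz]; nlinarith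
  have hlz2 : Real.log ((2 ^ E ^ 2 : ℕ) : ℝ) ≤ (E : ℝ) ^ 2 := by rw [hlz]; nlinarith
  have hlE : 0 ≤ Real.log E := Real.log_nonneg (by linarith)
  have hlK : Real.log ((E ^ B : ℕ) : ℝ) = B * Real.log E := by
    push_cast
    rw [Real.log_pow]
  have h3y : Real.log (3 * y) ≤ 2 + Y := by
    rw [Real.log_mul (by norm_num) hy0.ne', ← hY]
    have h1 : Real.log 3 ≤ 3 - 1 := Real.log_le_sub_one_of_pos (by norm_num)
    linarith
  have h3y0 : 0 < Real.log (3 * y) := Real.log_pos (by linarith)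
  have hC₁ : ∑ p ∈ (Icc 1 (3 * y)).filter Nat.Prime, (1 : ℝ) / p ≤ (8 + C₀) * (1 + Real.log E) := by
    refine (hsum (3 * y) (by omega)).trans ?_
    push_cast
    have h1 : Real.log (Real.log (3 * y)) ≤ 6 + 8 * Real.log E := by
      have h2 : Real.log (3 * y) ≤ Real.exp 6 * (E : ℝ) ^ 8 := by
        have h3 : (258 : ℝ) ≤ Real.exp 6 := by
          have h4 : (2.7 : ℝ) ≤ Real.exp 1 := by have := Real.exp_one_gt_d9; linarith
          calc (258 : ℝ) ≤ (2.7 : ℝ) ^ 6 := by norm_num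
            _ ≤ (Real.exp 1) ^ 6 := pow_le_pow_left₀ (by norm_num) h4 6
            _ = Real.exp 6 := by rw [← Real.exp_nat_mul]; norm_num
        have h5 : (1 : ℝ) ≤ (E : ℝ) ^ 8 := one_le_pow₀ (by linarith)
        nlinarith
      have h3 := Real.log_le_log h3y0 h2
      have h4 : Real.log (Real.exp 6 * (E : ℝ) ^ 8) = 6 + 8 * Real.log E := by
        rw [Real.log_mul (by positivity) (by positivity), Real.log_exp, Real.log_pow]
        push_cast
        rfl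
      rw [h4] at h3
      exact h3
    nlinarith [mul_nonneg hC₀ hlE]
  have hmain := hs y (E ^ B) (2 ^ E ^ 2) s (Real.exp (Y / E)) (Real.exp (Y / E)) ((8 + C₀) * (1 + Real.log E))
    (by omega) hH (by omega) (Nat.one_le_pow _ _ (by omega)) hK hs1 hsy (Real.one_le_exp (by positivity)) (by
      have h1 : Real.exp (Y / 2) ≤ (Nat.sqrt y : ℝ) + 1 := by
        have h2 : (Real.exp (Y / 2)) ^ 2 ≤ ((Nat.sqrt y : ℝ) + 1) ^ 2 := by
          have h3 : y < (Nat.sqrt y + 1) ^ 2 := Nat.lt_succ_sqrt' y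
          have h4 : (y : ℝ) < ((Nat.sqrt y : ℝ) + 1) ^ 2 := by exact_mod_cast h3
          have h5 : (Real.exp (Y / 2)) ^ 2 = y := by
            rw [hyexp, ← Real.exp_nat_mul]
            congr 1
            push_cast
            ring
          rw [h5]
          exact h4.le
        exact le_of_sq_le_sq h2 (by positivity)
      calc (s : ℝ) ≤ Real.exp ((1 / 2 + 1 / E) * Y) := hsle
        _ = Real.exp (Y / E) * Real.exp (Y / 2) := by
          rw [← Real.exp_add]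
          congr 1
          ring
        _ ≤ _ := mul_le_mul_of_nonneg_left h1 (Real.exp_pos _).le) (hWE.trans (Real.exp_le_exp.2 hYE)) (by
      push_cast
      have h1 : 36 * (E : ℝ) ^ B ≤ Real.exp (Y / E) := h36.trans (Real.exp_le_exp.2 hYE)
      have h2 : (Real.exp ((1 / 2 + 1 / E) * Y) / 2) ^ 2 ≤ (s : ℝ) ^ 2 := pow_le_pow_left₀ (by positivity) hsge 2
      have h3 : (Real.exp ((1 / 2 + 1 / E) * Y) / 2) ^ 2 = y * (Real.exp (Y / E) * Real.exp (Y / E)) / 4 := by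
        rw [hyexp, div_pow, ← Real.exp_nat_mul, ← Real.exp_add, ← Real.exp_add]
        have : ((2 : ℕ) : ℝ) * ((1 / 2 + 1 / (E : ℝ)) * Y) = Y + (Y / E + Y / E) := by
          push_cast
          ring
        rw [this]
        norm_num
      have h4 : 0 < Real.exp (Y / E) := Real.exp_pos _
      rw [h3] at h2
      refine le_trans ?_ h2
      have h5 : 36 * (E : ℝ) ^ B * (y * Real.exp (Y / E)) ≤ Real.exp (Y / E) * (y * Real.exp (Y / E)) :=
        mul_le_mul_of_nonneg_right h1 (by positivity)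
      linarith) hC₁
  refine hmain.trans ?_
  rw [mul_assoc C]
  apply mul_le_mul_of_nonneg_left _ (by linarith)
  have hyEpos : 0 ≤ (y : ℝ) / E := by positivity
  have hsq : (1 + Real.log E) ≤ 3 * √(E : ℝ) := log_le_sqrt (by linarith)
  have hsqE : √(E : ℝ) * √(E : ℝ) = E := Real.mul_self_sqrt hE0.le
  have hsqE1 : √(E : ℝ) ≤ E := by
    have : 1 ≤ √(E : ℝ) := by rw [Real.one_le_sqrt]; linarith
    nlinarith [Real.sqrt_nonneg (E : ℝ)]
  -- first term
  have t1 : √(y : ℝ) ≤ 2 * (y / E) := by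
    have h1 : √(y : ℝ) = Real.exp (Y / 2) := by
      rw [hyexp, Real.sqrt_eq_rpow, ← Real.exp_mul]
      congr 1
      ring
    have h2 : E * Real.exp (Y / 2) ≤ 2 * y := by
      have h3 : (E : ℝ) ≤ 2 * Real.exp (Y / 2) := by
        have h4 := Real.add_one_le_exp (Y / 2)
        have h5 : (E : ℝ) ≤ (E : ℝ) ^ 4 := by
          calc (E : ℝ) = (E : ℝ) ^ 1 := (pow_one _).symm
            _ ≤ (E : ℝ) ^ 4 := pow_le_pow_right₀ (by linarith) (by norm_num)
        linarith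
      have h6 : (y : ℝ) = Real.exp (Y / 2) * Real.exp (Y / 2) := by
        rw [hyexp, ← Real.exp_add]
        congr 1
        ring
      rw [h6]
      have := Real.exp_pos (Y / 2)
      nlinarith
    rw [h1, ← mul_div_assoc, le_div_iff₀ hE0]
    linarith
  have t2 : y * Real.log ((2 ^ E ^ 2 : ℕ) : ℝ) * Real.exp (-(Real.log y / (8 * Real.log ((2 ^ E ^ 2 : ℕ) : ℝ)))) ≤
      128 * (y / E) := by
    have hlzpos : 0 < Real.log ((2 ^ E ^ 2 : ℕ) : ℝ) := by linarith [hlz1, hE2pos]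
    have h1 : (E : ℝ) ^ 2 / 8 ≤ Real.log y / (8 * Real.log ((2 ^ E ^ 2 : ℕ) : ℝ)) := by
      rw [← hY, le_div_iff₀ (by positivity)]
      calc (E : ℝ) ^ 2 / 8 * (8 * Real.log ((2 ^ E ^ 2 : ℕ) : ℝ)) = (E : ℝ) ^ 2 * Real.log ((2 ^ E ^ 2 : ℕ) : ℝ) := by ring
        _ ≤ (E : ℝ) ^ 2 * (E : ℝ) ^ 2 := mul_le_mul_of_nonneg_left hlz2 hE2pos.le
        _ = (E : ℝ) ^ 4 := by ring
        _ ≤ Y := hy1
    have h2 : Real.exp (-(Real.log y / (8 * Real.log ((2 ^ E ^ 2 : ℕ) : ℝ)))) ≤ Real.exp (-((E : ℝ) ^ 2 / 8)) :=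
      Real.exp_le_exp.2 (neg_le_neg h1)
    have h3 : Real.exp (-((E : ℝ) ^ 2 / 8)) ≤ 128 / (E : ℝ) ^ 4 := by
      rw [Real.exp_neg, inv_le_comm₀ (Real.exp_pos _) (by positivity), inv_div]
      have h4 := Real.quadratic_le_exp_of_nonneg (x := (E : ℝ) ^ 2 / 8) (by positivity)
      have h5 : (E : ℝ) ^ 4 / 128 = ((E : ℝ) ^ 2 / 8) ^ 2 / 2 := by ring
      rw [h5]
      have : 0 ≤ (E : ℝ) ^ 2 / 8 := by positivity
      linarith
    calc _ ≤ y * (E : ℝ) ^ 2 * (128 / (E : ℝ) ^ 4) := by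
          apply mul_le_mul _ (h2.trans h3) (Real.exp_pos _).le (by positivity)
          exact mul_le_mul_of_nonneg_left hlz2 hy0.le
      _ = 128 * (y / E) * (1 / E) := by field_simp
      _ ≤ 128 * (y / E) * 1 := by
          apply mul_le_mul_of_nonneg_left _ (by positivity)
          linarith
      _ = _ := by ring
  have t3 : (y : ℝ) / ((2 ^ E ^ 2 : ℕ) : ℝ) ≤ y / E := by
    apply div_le_div_of_nonneg_left hy0.le hE0
    have hlt : E < 2 ^ E := Nat.lt_two_pow_self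
    have hEE : 2 ^ E ≤ 2 ^ E ^ 2 := Nat.pow_le_pow_right (by norm_num) (by nlinarith)
    exact_mod_cast (hlt.le.trans hEE)
  have t4 : y * ((8 + C₀) * (1 + Real.log E) * (2 + Real.log ((E ^ B : ℕ) : ℝ)) / Real.log ((2 ^ E ^ 2 : ℕ) : ℝ)) ≤
      18 * (8 + C₀) * (2 + B) * (y / E) := by
    have h1 : 2 + Real.log ((E ^ B : ℕ) : ℝ) ≤ (2 + B) * (1 + Real.log E) := by
      rw [hlK]
      nlinarith [Nat.cast_nonneg (α := ℝ) B]
    have h2 : (1 + Real.log E) * (1 + Real.log E) ≤ 9 * E := by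
      calc (1 + Real.log E) * (1 + Real.log E) ≤ (3 * √(E : ℝ)) * (3 * √(E : ℝ)) :=
            mul_le_mul hsq hsq (by linarith) (by positivity)
        _ = 9 * (√(E : ℝ) * √(E : ℝ)) := by ring
        _ = 9 * E := by rw [hsqE]
    have h3 : (8 + C₀) * (1 + Real.log E) * (2 + Real.log ((E ^ B : ℕ) : ℝ)) ≤ (8 + C₀) * (2 + B) * (9 * E) := by
      calc (8 + C₀) * (1 + Real.log E) * (2 + Real.log ((E ^ B : ℕ) : ℝ))
          ≤ (8 + C₀) * (1 + Real.log E) * ((2 + B) * (1 + Real.log E)) :=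
            mul_le_mul_of_nonneg_left h1 (by positivity)
        _ = (8 + C₀) * (2 + B) * ((1 + Real.log E) * (1 + Real.log E)) := by ring
        _ ≤ _ := mul_le_mul_of_nonneg_left h2 (by positivity)
    have h4 : (8 + C₀) * (1 + Real.log E) * (2 + Real.log ((E ^ B : ℕ) : ℝ)) / Real.log ((2 ^ E ^ 2 : ℕ) : ℝ) ≤
        (8 + C₀) * (2 + B) * (9 * E) / ((E : ℝ) ^ 2 / 2) :=
      div_le_div₀ (by positivity) h3 (by positivity) hlz1
    calc _ ≤ y * ((8 + C₀) * (2 + B) * (9 * E) / ((E : ℝ) ^ 2 / 2)) := mul_le_mul_of_nonneg_left h4 hy0.le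
      _ = _ := by field_simp; ring
  have t5 : y * (2 + Real.log (Real.exp (Y / E))) / Real.log y ≤ 3 * (y / E) := by
    rw [Real.log_exp, ← hY, div_le_iff₀ (by linarith)]
    have h1 : 2 * (E : ℝ) ≤ 2 * Y := by
      have h5 : (E : ℝ) ≤ (E : ℝ) ^ 4 := by
        calc (E : ℝ) = (E : ℝ) ^ 1 := (pow_one _).symm
          _ ≤ (E : ℝ) ^ 4 := pow_le_pow_right₀ (by linarith) (by norm_num)
      linarith
    have h2 : 3 * ((y : ℝ) / E) * Y = y * (3 * Y / E) := by ring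
    rw [h2]
    apply mul_le_mul_of_nonneg_left _ hy0.le
    have h3 : 2 ≤ 2 * Y / E := by
      rw [le_div_iff₀ hE0]
      exact h1
    have h4 : 3 * Y / E = 2 * Y / E + Y / E := by ring
    linarith
  have t6 : y * (2 + Real.log (3 * y)) * (2 + Real.log (4 * ((E ^ B : ℕ) : ℝ))) / Real.log (Real.exp (Y / E)) ^ 2 ≤
      15 * (4 + B) * (y / E) := by
    have h1 : 2 + Real.log (4 * ((E ^ B : ℕ) : ℝ)) ≤ (4 + B) * (1 + Real.log E) := by
      rw [Real.log_mul (by norm_num) (by positivity), hlK]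
      have h2 : Real.log 4 ≤ 2 := by
        have : (4 : ℝ) = 2 ^ 2 := by norm_num
        rw [this, Real.log_pow]
        push_cast
        linarith
      nlinarith [Nat.cast_nonneg (α := ℝ) B]
    have h2 : 2 + Real.log (3 * y) ≤ 5 * Y := by linarith
    have h0 : 0 ≤ 2 + Real.log (4 * ((E ^ B : ℕ) : ℝ)) := by
      have h9 : (1 : ℝ) ≤ ((E ^ B : ℕ) : ℝ) := by exact_mod_cast Nat.one_le_pow B E (by omega)
      have := Real.log_nonneg (by linarith : (1 : ℝ) ≤ 4 * ((E ^ B : ℕ) : ℝ))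
      linarith
    rw [Real.log_exp]
    have h3 : y * (2 + Real.log (3 * y)) * (2 + Real.log (4 * ((E ^ B : ℕ) : ℝ))) ≤
        y * (5 * Y) * ((4 + B) * (3 * √(E : ℝ))) := by
      apply mul_le_mul _ _ h0 (by positivity)
      · exact mul_le_mul_of_nonneg_left h2 hy0.le
      · exact h1.trans (mul_le_mul_of_nonneg_left hsq (by positivity))
    calc _ ≤ y * (5 * Y) * ((4 + B) * (3 * √(E : ℝ))) / (Y / E) ^ 2 :=
          div_le_div_of_nonneg_right h3 (by positivity)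
      _ = 15 * (4 + B) * y * ((E : ℝ) ^ 2 * √(E : ℝ) / Y) := by
          field_simp
          ring
      _ ≤ 15 * (4 + B) * y * ((E : ℝ) ^ 2 * E / (E : ℝ) ^ 4) := by
          apply mul_le_mul_of_nonneg_left _ (by positivity)
          apply div_le_div₀ (by positivity) _ (by positivity) hy1
          exact mul_le_mul_of_nonneg_left hsqE1 (by positivity)
      _ = _ := by field_simp
  linarith

end Pool.Agent.L5helper4.ML
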