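import Mathlib
import Pool.Agent.L5helper4.ML.M6

/-! Weighted sums over the exceptional integers and the exceptional pairs. -/

set_option autoImplicit false

namespace Pool.Agent.L5helper4.ML

open Finset Filter Classical

lemma sum_le_cover {α ι : Type*} (S : Finset α) (I : Finset ι) (G : ι → Finset α) (f : α → ℝ) (hf : ∀ a, 0 ≤ f a)
    (hcov : ∀ a ∈ S, ∃ i ∈ I, a ∈ G i) : ∑ a ∈ S, f a ≤ ∑ i ∈ I, ∑ a ∈ G i, f a := by
  calc ∑ a ∈ S, f a ≤ ∑ a ∈ S, ∑ i ∈ I, (if a ∈ G i then f a else 0) := by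
        apply sum_le_sum
        intro a ha
        obtain ⟨i, hi, hai⟩ := hcov a ha
        have h1 := single_le_sum (f := fun i => if a ∈ G i then f a else 0) (s := I) (fun j _ => by
          show 0 ≤ (if a ∈ G j then f a else 0)
          split_ifs
          · exact hf a
          · exact le_rfl) hi
        simp only [if_pos hai] at h1
        exact h1
    _ = ∑ i ∈ I, ∑ a ∈ S, (if a ∈ G i then f a else 0) := sum_comm
    _ ≤ ∑ i ∈ I, ∑ a ∈ G i, f a := by
        apply sum_le_sum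
        intro i _
        rw [← sum_filter]
        apply sum_le_sum_of_subset_of_nonneg
        · intro a ha
          exact (mem_filter.1 ha).2
        · intro a _ _
          exact hf a

lemma harm_le (X : ℕ) : ∑ n ∈ Icc 1 X, (1 : ℝ) / n ≤ 1 + Real.log X := by
  have h1 := harmonic_le_one_add_log X
  rw [harmonic_eq_sum_Icc] at h1
  push_cast at h1
  simpa [one_div] using h1

theorem bad_sum (T : Finset ℕ) (hT : T.Nonempty) (B : ℕ) : ∃ C : ℝ, 1 ≤ C ∧ ∃ E₀ : ℕ, ∀ E : ℕ, E₀ ≤ E →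
    ∀ X : ℕ, (E : ℝ) ^ 8 ≤ Real.log X → Real.log X ≤ 256 * (E : ℝ) ^ 8 →
    ∑ n ∈ (Icc 1 X).filter (fun n => ¬ ∃ P, Dom (E ^ B) (2 ^ E ^ 2) (RR T n) P), (1 : ℝ) / n ≤
      C * (Real.log X / E) := by
  obtain ⟨C, hC, E₀, h⟩ := scale T hT B
  refine ⟨3 + 2 * C, by linarith, E₀, fun E hE X hX1 hX2 => ?_⟩
  obtain ⟨hE2, -, -, hsc⟩ := h E hE
  have hEr : (2 : ℝ) ≤ E := by exact_mod_cast hE2
  have hE0 : (0 : ℝ) < E := by linarith
  have hE8 : (256 : ℝ) ≤ (E : ℝ) ^ 8 := by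
    calc (256 : ℝ) = 2 ^ 8 := by norm_num
      _ ≤ (E : ℝ) ^ 8 := pow_le_pow_left₀ (by norm_num) hEr 8
  have hX0 : X ≠ 0 := by
    rintro rfl
    rw [Nat.cast_zero, Real.log_zero] at hX1
    linarith
  have hlog2a := Real.log_two_gt_d9
  have hlog2b := Real.log_two_lt_d9
  set bad : ℕ → Prop := fun n => ¬ ∃ P, Dom (E ^ B) (2 ^ E ^ 2) (RR T n) P with hbad
  have hcov := sum_le_cover ((Icc 1 X).filter bad) (insert (0 : ℕ) (Ioc (2 * E ^ 4) (Nat.log 2 X + 1)))
    (fun i => if i = 0 then Icc 1 (2 ^ (2 * E ^ 4)) else (Ioc (2 ^ (i - 1)) (2 * 2 ^ (i - 1))).filter bad)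
    (fun n : ℕ => (1 : ℝ) / n) (fun n => by positivity) (by
      intro n hn
      rw [mem_filter, mem_Icc] at hn
      by_cases h1 : n ≤ 2 ^ (2 * E ^ 4)
      · refine ⟨0, mem_insert_self _ _, ?_⟩
        rw [if_pos rfl, mem_Icc]
        exact ⟨hn.1.1, h1⟩
      · push Not at h1
        set j := Nat.clog 2 n with hj
        have hn2 : 1 < n := lt_of_le_of_lt (Nat.one_le_two_pow) h1
        have hj1 : 2 ^ (j - 1) < n := Nat.pow_pred_clog_lt_self (by norm_num) hn2
        have hj2 : n ≤ 2 ^ j := Nat.le_pow_clog (by norm_num) n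
        have hj0 : 0 < j := Nat.clog_pos (by norm_num) hn2
        have hj3 : 2 * E ^ 4 < j := by
          have : 2 ^ (2 * E ^ 4) < 2 ^ j := h1.trans_le hj2
          exact (Nat.pow_lt_pow_iff_right (by norm_num)).1 this
        have hj4 : j ≤ Nat.log 2 X + 1 := by
          have h2 : 2 ^ (j - 1) < X := hj1.trans_le hn.1.2
          have h3 : j - 1 ≤ Nat.log 2 X := Nat.le_log_of_pow_le (by norm_num) h2.le
          omega
        refine ⟨j, mem_insert_of_mem (mem_Ioc.2 ⟨hj3, hj4⟩), ?_⟩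
        rw [if_neg (by omega), mem_filter, mem_Ioc]
        refine ⟨⟨hj1, ?_⟩, hn.2⟩
        have : 2 * 2 ^ (j - 1) = 2 ^ j := by rw [← pow_succ', Nat.sub_add_cancel hj0]
        omega)
  refine hcov.trans ?_
  rw [sum_insert (by
    rw [mem_Ioc]
    omega)]
  simp only [if_true]
  have h1 : ∑ n ∈ (Icc 1 (2 ^ (2 * E ^ 4)) : Finset ℕ), (1 : ℝ) / (n : ℝ) ≤ 3 * (Real.log X / E) := by
    refine (harm_le (2 ^ (2 * E ^ 4))).trans ?_
    push_cast
    rw [Real.log_pow]
    push_cast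
    have h2 : 2 * (E : ℝ) ^ 4 * Real.log 2 ≤ 2 * (E : ℝ) ^ 4 := by
      have : 0 < 2 * (E : ℝ) ^ 4 := by positivity
      nlinarith
    have h3 : (1 : ℝ) ≤ (E : ℝ) ^ 4 := one_le_pow₀ (by linarith)
    have h4 : (E : ℝ) ^ 4 ≤ Real.log X / E := by
      rw [le_div_iff₀ hE0]
      calc (E : ℝ) ^ 4 * E = (E : ℝ) ^ 5 := by ring
        _ ≤ (E : ℝ) ^ 8 := pow_le_pow_right₀ (by linarith) (by norm_num)
        _ ≤ _ := hX1
    linarith
  have h2 : ∀ i ∈ Ioc (2 * E ^ 4) (Nat.log 2 X + 1), ∑ n ∈ (if i = 0 then Icc 1 (2 ^ (2 * E ^ 4)) else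
      (Ioc (2 ^ (i - 1)) (2 * 2 ^ (i - 1))).filter bad), (1 : ℝ) / n ≤ C / E := by
    intro i hi
    rw [mem_Ioc] at hi
    rw [if_neg (by omega)]
    have hp0 : (0 : ℝ) < ((2 ^ (i - 1) : ℕ) : ℝ) := by positivity
    have hlogy : Real.log ((2 ^ (i - 1) : ℕ) : ℝ) = ((i - 1 : ℕ) : ℝ) * Real.log 2 := by
      push_cast
      rw [Real.log_pow]
    have h3 := hsc (2 ^ (i - 1)) (by
      rw [hlogy]
      have h4 : 2 * (E : ℝ) ^ 4 ≤ ((i - 1 : ℕ) : ℝ) := by
        have : 2 * E ^ 4 ≤ i - 1 := by omega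
        exact_mod_cast this
      nlinarith [(by positivity : (0 : ℝ) ≤ (E : ℝ) ^ 4)]) (by
      refine le_trans ?_ hX2
      apply Real.log_le_log hp0
      have h4 : 2 ^ (i - 1) ≤ X := by
        calc 2 ^ (i - 1) ≤ 2 ^ (Nat.log 2 X) := Nat.pow_le_pow_right (by norm_num) (by omega)
          _ ≤ X := Nat.pow_log_le_self 2 hX0
      exact_mod_cast h4)
    calc ∑ n ∈ (Ioc (2 ^ (i - 1)) (2 * 2 ^ (i - 1))).filter bad, (1 : ℝ) / n
        ≤ ∑ n ∈ (Ioc (2 ^ (i - 1)) (2 * 2 ^ (i - 1))).filter bad, (1 : ℝ) / ((2 ^ (i - 1) : ℕ) : ℝ) := by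
          apply sum_le_sum
          intro n hn
          rw [mem_filter, mem_Ioc] at hn
          apply one_div_le_one_div_of_le hp0
          exact_mod_cast hn.1.1.le
      _ = (((Ioc (2 ^ (i - 1)) (2 * 2 ^ (i - 1))).filter bad).card : ℝ) / ((2 ^ (i - 1) : ℕ) : ℝ) := by
          rw [sum_const, nsmul_eq_mul, mul_one_div]
      _ ≤ C * (((2 ^ (i - 1) : ℕ) : ℝ) / E) / ((2 ^ (i - 1) : ℕ) : ℝ) := div_le_div_of_nonneg_right h3 hp0.le
      _ = C / E := by field_simp
  have h3 : ∑ i ∈ Ioc (2 * E ^ 4) (Nat.log 2 X + 1), ∑ n ∈ (if i = 0 then Icc 1 (2 ^ (2 * E ^ 4)) else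
      (Ioc (2 ^ (i - 1)) (2 * 2 ^ (i - 1))).filter bad), (1 : ℝ) / n ≤ 2 * C * (Real.log X / E) := by
    refine (sum_le_sum h2).trans ?_
    rw [sum_const, nsmul_eq_mul, Nat.card_Ioc]
    have h4 : (((Nat.log 2 X + 1 - 2 * E ^ 4 : ℕ)) : ℝ) ≤ 2 * Real.log X := by
      have h5 : ((Nat.log 2 X + 1 - 2 * E ^ 4 : ℕ) : ℝ) ≤ (Nat.log 2 X : ℝ) := by
        have : 1 ≤ 2 * E ^ 4 := by have := Nat.one_le_pow 4 E (by omega); omega
        exact_mod_cast (by omega : Nat.log 2 X + 1 - 2 * E ^ 4 ≤ Nat.log 2 X)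
      have h6 : (Nat.log 2 X : ℝ) * Real.log 2 ≤ Real.log X := by
        have h7 : ((2 ^ (Nat.log 2 X) : ℕ) : ℝ) ≤ X := by exact_mod_cast Nat.pow_log_le_self 2 hX0
        have h8 := Real.log_le_log (by positivity) h7
        push_cast at h8
        rwa [Real.log_pow] at h8
      nlinarith [Nat.cast_nonneg (α := ℝ) (Nat.log 2 X)]
    calc _ ≤ 2 * Real.log X * (C / E) := mul_le_mul_of_nonneg_right h4 (by positivity)
      _ = _ := by ring
  linarith

/-- weighted sum over a residue class -/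
lemma class_sum (X p h : ℕ) (hp : 1 ≤ p) (hph : 2 * h ≤ p) :
    ∑ n ∈ (Icc 1 X).filter (fun n => p ∣ n + h), (1 : ℝ) / n ≤ 2 / p * (1 + Real.log (X + h)) := by
  have hp0 : (0 : ℝ) < p := by exact_mod_cast hp
  calc ∑ n ∈ (Icc 1 X).filter (fun n => p ∣ n + h), (1 : ℝ) / n
      ≤ ∑ n ∈ (Icc 1 X).filter (fun n => p ∣ n + h), 2 / p * (1 / (((n + h) / p : ℕ) : ℝ)) := by
        apply sum_le_sum
        intro n hn
        rw [mem_filter, mem_Icc] at hn
        obtain ⟨k, hk⟩ := hn.2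
        have hk0 : 0 < k := Nat.pos_of_ne_zero (by rintro rfl; omega)
        have h1 : (n + h) / p = k := by rw [hk]; exact Nat.mul_div_cancel_left k hp
        rw [h1]
        have hk0' : (0 : ℝ) < k := by exact_mod_cast hk0
        have hn0 : (0 : ℝ) < n := by exact_mod_cast hn.1.1
        have h2 : p ≤ p * k := Nat.le_mul_of_pos_right p hk0
        have h3 : p * k ≤ 2 * n := by omega
        have h4 : (p : ℝ) * k ≤ 2 * n := by exact_mod_cast h3
        rw [div_mul_div_comm, mul_one, div_le_div_iff₀ hn0 (by positivity)]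
        linarith
    _ = 2 / p * ∑ k ∈ ((Icc 1 X).filter (fun n => p ∣ n + h)).image (fun n => (n + h) / p), (1 : ℝ) / k := by
        rw [← mul_sum, sum_image]
        intro a ha b hb hab
        rw [mem_coe, mem_filter] at ha hb
        have h1 := Nat.div_mul_cancel ha.2
        have h2 := Nat.div_mul_cancel hb.2
        have h3 : (a + h) / p = (b + h) / p := hab
        rw [h3] at h1
        omega
    _ ≤ 2 / p * ∑ k ∈ Icc 1 (X + h), (1 : ℝ) / k := by
        apply mul_le_mul_of_nonneg_left _ (by positivity)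
        apply sum_le_sum_of_subset_of_nonneg
        · intro k hk
          rw [mem_image] at hk
          obtain ⟨n, hn, rfl⟩ := hk
          rw [mem_filter, mem_Icc] at hn
          rw [mem_Icc]
          refine ⟨Nat.div_pos (Nat.le_of_dvd (by omega) hn.2) hp, (Nat.div_le_self _ _).trans (by omega)⟩
        · intro _ _ _
          positivity
    _ ≤ _ := by
        apply mul_le_mul_of_nonneg_left _ (by positivity)
        have := harm_le (X + h)
        push_cast at this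
        exact this

/-- the pairs with close large primes -/
def Close (K z : ℕ) (T : Finset ℕ) (n m : ℕ) : Prop := ∃ h ∈ T, ∃ h' ∈ T, ∃ p q : ℕ, p.Prime ∧ q.Prime ∧ z < p ∧
  z < q ∧ p < K * q ∧ q < K * p ∧ p ∣ n + h ∧ q ∣ m + h'

lemma close_or {K z n m P Q : ℕ} {T : Finset ℕ} (hK : 2 ≤ K) (hP : Dom K z (RR T n) P)
    (hQ : Dom K z (RR T m) Q) (hn : 1 ≤ n) (hm : 1 ≤ m) (hc : ¬ Close K z T n m) :
    ∃ P', Dom K z (RR T n * RR T m) P' := by
  have key : ∀ (n m P Q : ℕ), 1 ≤ n → 1 ≤ m → Dom K z (RR T n) P → Dom K z (RR T m) Q → K * Q ≤ P →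
      Dom K z (RR T n * RR T m) P := by
    intro n m P Q hn hm hP hQ hKQ
    have hQP : Q < P := by
      have := hQ.1.pos
      nlinarith
    refine ⟨hP.1, hP.2.1, ?_, ?_⟩
    · rw [Nat.factorization_mul (RR_ne hn) (RR_ne hm), Finsupp.add_apply, hP.2.2.1]
      have h1 : (RR T m).factorization P = 0 := by
        apply Nat.factorization_eq_zero_of_not_dvd
        intro h2
        have h3 := hQ.2.2.2 P hP.1 h2 (by omega)
        nlinarith [hP.1.pos]
      omega
    · intro q hq hqd hqP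
      rcases hq.dvd_mul.1 hqd with h | h
      · exact hP.2.2.2 q hq h hqP
      · by_cases hqQ : q = Q
        · rw [hqQ]; exact hKQ
        · exact (hQ.2.2.2 q hq h hqQ).trans hQP.le
  by_cases h1 : K * Q ≤ P
  · exact ⟨P, key n m P Q hn hm hP hQ h1⟩
  by_cases h2 : K * P ≤ Q
  · exact ⟨Q, by rw [mul_comm]; exact key m n Q P hm hn hQ hP h2⟩
  exfalso
  apply hc
  push Not at h1 h2
  have hPd : P ∣ RR T n := by
    by_contra h3
    have := Nat.factorization_eq_zero_of_not_dvd h3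
    rw [hP.2.2.1] at this
    omega
  have hQd : Q ∣ RR T m := by
    by_contra h3
    have := Nat.factorization_eq_zero_of_not_dvd h3
    rw [hQ.2.2.1] at this
    omega
  obtain ⟨h, hh, hd⟩ := (Prime.dvd_finsetProd_iff hP.1.prime _).1 hPd
  obtain ⟨h', hh', hd'⟩ := (Prime.dvd_finsetProd_iff hQ.1.prime _).1 hQd
  exact ⟨h, hh, h', hh', P, Q, hP.1, hQ.1, hP.2.1, hQ.2.1, h1, h2, hd, hd'⟩

end Pool.Agent.L5helper4.ML
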