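import Mathlib
import Pool.Agent.L5helper4.ML.M7

/-! Weighted sum over the pairs with close large primes. -/

set_option autoImplicit false

namespace Pool.Agent.L5helper4.ML

open Finset Filter Classical

theorem close_pairs (T : Finset ℕ) (hT : T.Nonempty) (B : ℕ) : ∃ C : ℝ, 1 ≤ C ∧ ∃ E₀ : ℕ, ∀ E : ℕ, E₀ ≤ E →
    ∀ X : ℕ, (E : ℝ) ^ 8 ≤ Real.log X → Real.log X ≤ 256 * (E : ℝ) ^ 8 →
    ∑ x ∈ ((Icc 1 X) ×ˢ (Icc 1 X)).filter (fun x => Close (E ^ B) (2 ^ E ^ 2) T x.1 x.2),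
      (1 : ℝ) / (x.1 * x.2) ≤ C * (Real.log X ^ 2 / E) := by
  obtain ⟨C₀, hC₀, hsum⟩ := sum_inv
  obtain ⟨E₀, hE₀⟩ := eventually_atTop.1 (ev_params B (T.sup id) 0)
  obtain ⟨t, ht⟩ : ∃ t : ℝ, t = (T.card : ℝ) := ⟨_, rfl⟩
  have ht1 : 1 ≤ t := by rw [ht]; exact_mod_cast card_pos.2 hT
  refine ⟨t * t * (16 * (72 * (8 + C₀) * (2 + 2 * B))), ?_, E₀, fun E hE X hX1 hX2 => ?_⟩
  · have h1 : (0 : ℝ) ≤ C₀ * (2 + 2 * B) := by positivity
    have h2 : (0 : ℝ) ≤ (B : ℝ) := by positivity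
    have h3 : (1 : ℝ) ≤ 16 * (72 * (8 + C₀) * (2 + 2 * B)) := by nlinarith
    have h4 : 1 ≤ t * t := by nlinarith
    nlinarith
  obtain ⟨hE2, -, hK, hH5, -, -⟩ := hE₀ E hE
  have hEr : (2 : ℝ) ≤ E := by exact_mod_cast hE2
  have hE0 : (0 : ℝ) < E := by linarith
  have hE8 : (256 : ℝ) ≤ (E : ℝ) ^ 8 := by
    calc (256 : ℝ) = 2 ^ 8 := by norm_num
      _ ≤ (E : ℝ) ^ 8 := pow_le_pow_left₀ (by norm_num) hEr 8
  have hX0 : X ≠ 0 := by
    rintro rfl
    rw [Nat.cast_zero, Real.log_zero] at hX1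
    linarith
  have hXr : (0 : ℝ) < X := by exact_mod_cast Nat.pos_of_ne_zero hX0
  have hlog2a := Real.log_two_gt_d9
  have hlog2b := Real.log_two_lt_d9
  set H := T.sup id with hHdef
  have hTH : ∀ h ∈ T, h ≤ H := fun h hh => le_sup (f := id) hh
  set K := E ^ B with hKdef
  set z := 2 ^ E ^ 2 with hzdef
  have hK1 : 1 ≤ K := Nat.one_le_pow B E (by omega)
  have hz2E : 2 * E ≤ z := by
    have h1 : E < 2 ^ E := Nat.lt_two_pow_self
    have h2 : 2 * 2 ^ E ≤ 2 ^ E ^ 2 := by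
      rw [← pow_succ']
      exact Nat.pow_le_pow_right (by norm_num) (by nlinarith)
    omega
  have hEX : (E : ℝ) ≤ X := by
    have h1 : (E : ℝ) ≤ Real.log X := by
      refine le_trans ?_ hX1
      calc (E : ℝ) = (E : ℝ) ^ 1 := (pow_one _).symm
        _ ≤ (E : ℝ) ^ 8 := pow_le_pow_right₀ (by linarith) (by norm_num)
    have h2 := Real.log_le_sub_one_of_pos hXr
    linarith
  have hEXn : E ≤ X := by exact_mod_cast hEX
  have hlXH : Real.log ((X : ℝ) + H) ≤ 1 + Real.log X := by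
    have h1 : (X : ℝ) + H ≤ 2 * X := by
      have : X + H ≤ 2 * X := by omega
      exact_mod_cast this
    have h2 := Real.log_le_log (by positivity) h1
    rw [Real.log_mul (by norm_num) hXr.ne'] at h2
    linarith
  have hlXHpos : 0 < Real.log ((X : ℝ) + H) := by
    apply Real.log_pos
    have : (2 : ℝ) ≤ X := hEr.trans hEX
    have h3 : (0 : ℝ) ≤ H := by positivity
    linarith
  have hlE : 0 ≤ Real.log E := Real.log_nonneg (by linarith)
  have hC₁ : ∑ p ∈ (Icc 1 (X + H)).filter Nat.Prime, (1 : ℝ) / p ≤ (8 + C₀) * (1 + Real.log E) := by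
    refine (hsum (X + H) (by omega)).trans ?_
    push_cast
    have h1 : Real.log (Real.log ((X : ℝ) + H)) ≤ 6 + 8 * Real.log E := by
      have h2 : Real.log ((X : ℝ) + H) ≤ Real.exp 6 * (E : ℝ) ^ 8 := by
        have h3 : (258 : ℝ) ≤ Real.exp 6 := by
          have h4 : (2.7 : ℝ) ≤ Real.exp 1 := by have := Real.exp_one_gt_d9; linarith
          calc (258 : ℝ) ≤ (2.7 : ℝ) ^ 6 := by norm_num
            _ ≤ (Real.exp 1) ^ 6 := pow_le_pow_left₀ (by norm_num) h4 6
            _ = Real.exp 6 := by rw [← Real.exp_nat_mul]; norm_num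
        nlinarith
      have h3 := Real.log_le_log hlXHpos h2
      have h4 : Real.log (Real.exp 6 * (E : ℝ) ^ 8) = 6 + 8 * Real.log E := by
        rw [Real.log_mul (by positivity) (by positivity), Real.log_exp, Real.log_pow]
        push_cast
        rfl
      rw [h4] at h3
      exact h3
    nlinarith [mul_nonneg hC₀ hlE]
  have hcl := close_sum K z hK1 hK (X + H) (by omega) _ hC₁ ((K : ℝ) ^ 2) (fun p => K * p)
    (one_le_pow₀ (by exact_mod_cast hK1)) (by
      intro p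
      have h3 : p < K * (p / K + 1) := Nat.lt_mul_div_succ p (by omega)
      have h4 : K * p ≤ K ^ 2 * (p / K + 1) := by
        calc K * p ≤ K * (K * (p / K + 1)) := Nat.mul_le_mul_left _ h3.le
          _ = _ := by ring
      exact_mod_cast h4)
  obtain ⟨Λ, hΛ⟩ : ∃ Λ : ℝ, Λ = 1 + Real.log ((X : ℝ) + H) := ⟨_, rfl⟩
  have hΛ0 : 0 < Λ := by rw [hΛ]; linarith
  have hcov := sum_le_cover (((Icc 1 X) ×ˢ (Icc 1 X)).filter (fun x => Close K z T x.1 x.2))
    ((T ×ˢ T) ×ˢ (((Ioc z (X + H)).filter Nat.Prime).sigma (fun p => (Ioc (p / K) (K * p)).filter Nat.Prime)))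
    (fun i => if z < i.2.2 then ((Icc 1 X).filter (fun n => i.2.1 ∣ n + i.1.1)) ×ˢ
      ((Icc 1 X).filter (fun n => i.2.2 ∣ n + i.1.2)) else ∅)
    (fun x => (1 : ℝ) / (x.1 * x.2)) (fun x => by positivity) (by
      rintro ⟨n, m⟩ hx
      rw [mem_filter, mem_product] at hx
      obtain ⟨⟨hn, hm⟩, h, hh, h', hh', p, q, hp, hq, hzp, hzq, hpK, hqK, hpn, hqm⟩ := hx
      simp only at hn hm hpn hqm
      rw [mem_Icc] at hn hm
      refine ⟨((h, h'), ⟨p, q⟩), ?_, ?_⟩
      · rw [mem_product, mem_product, mem_sigma]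
        refine ⟨⟨hh, hh'⟩, ?_, ?_⟩
        · rw [mem_filter, mem_Ioc]
          have h1 := Nat.le_of_dvd (by omega) hpn
          have h2 := hTH h hh
          have h3 : p ≤ X + H := by omega
          exact ⟨⟨hzp, h3⟩, hp⟩
        · rw [mem_filter, mem_Ioc]
          exact ⟨⟨Nat.div_lt_of_lt_mul hpK, hqK.le⟩, hq⟩
      · simp only
        rw [if_pos hzq, mem_product, mem_filter, mem_filter, mem_Icc, mem_Icc]
        exact ⟨⟨hn, hpn⟩, ⟨hm, hqm⟩⟩)
  refine hcov.trans ?_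
  have hterm : ∀ i ∈ (T ×ˢ T) ×ˢ (((Ioc z (X + H)).filter Nat.Prime).sigma
      (fun p => (Ioc (p / K) (K * p)).filter Nat.Prime)),
      ∑ x ∈ (if z < i.2.2 then ((Icc 1 X).filter (fun n => i.2.1 ∣ n + i.1.1)) ×ˢ
      ((Icc 1 X).filter (fun n => i.2.2 ∣ n + i.1.2)) else ∅), (1 : ℝ) / (x.1 * x.2) ≤
      4 * Λ ^ 2 * (1 / ((i.2.1 : ℝ) * i.2.2)) := by
    rintro ⟨⟨h, h'⟩, ⟨p, q⟩⟩ hi
    rw [mem_product, mem_product, mem_sigma] at hi
    obtain ⟨⟨hh, hh'⟩, hp, hq⟩ := hi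
    simp only at hh hh' hp hq ⊢
    rw [mem_filter, mem_Ioc] at hp hq
    have hp0 : (0 : ℝ) < p := by exact_mod_cast hp.2.pos
    have hq0 : (0 : ℝ) < q := by exact_mod_cast hq.2.pos
    split_ifs with hzq
    · have h1 := class_sum X p h hp.2.pos (by have := hTH h hh; omega)
      have h2 := class_sum X q h' hq.2.pos (by have := hTH h' hh'; omega)
      have hle : ∀ g : ℕ, g ≤ H → 1 + Real.log ((X : ℝ) + g) ≤ Λ := by
        intro g hg
        rw [hΛ]
        have h3 : (g : ℝ) ≤ H := by exact_mod_cast hg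
        have : Real.log ((X : ℝ) + g) ≤ Real.log ((X : ℝ) + H) := Real.log_le_log (by positivity) (by linarith)
        linarith
      rw [sum_product]
      calc ∑ n ∈ (Icc 1 X).filter (fun n => p ∣ n + h), ∑ m ∈ (Icc 1 X).filter (fun n => q ∣ n + h'),
            (1 : ℝ) / (n * m)
          = (∑ n ∈ (Icc 1 X).filter (fun n => p ∣ n + h), (1 : ℝ) / n) *
            ∑ m ∈ (Icc 1 X).filter (fun n => q ∣ n + h'), (1 : ℝ) / m := by
            rw [sum_mul_sum]
            apply sum_congr rfl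
            intro n _
            apply sum_congr rfl
            intro m _
            rw [one_div_mul_one_div]
        _ ≤ (2 / p * Λ) * (2 / q * Λ) := by
            apply mul_le_mul
            · exact h1.trans (mul_le_mul_of_nonneg_left (hle h (hTH h hh)) (by positivity))
            · exact h2.trans (mul_le_mul_of_nonneg_left (hle h' (hTH h' hh')) (by positivity))
            · exact sum_nonneg fun _ _ => by positivity
            · positivity
        _ = _ := by field_simp; ring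
    · rw [sum_empty]
      positivity
  refine (sum_le_sum hterm).trans ?_
  rw [← mul_sum, sum_product]
  have hconst : ∑ x ∈ T ×ˢ T, ∑ y ∈ (((Ioc z (X + H)).filter Nat.Prime).sigma
      (fun p => (Ioc (p / K) (K * p)).filter Nat.Prime)), (1 : ℝ) / ((y.1 : ℝ) * y.2) =
      t * t * ∑ p ∈ (Ioc z (X + H)).filter Nat.Prime, ∑ q ∈ (Ioc (p / K) (K * p)).filter Nat.Prime,
        (1 : ℝ) / (p * q) := by
    rw [sum_const, nsmul_eq_mul, card_product, sum_sigma]
    push_cast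
    rw [← ht]
  rw [hconst]
  have hlz : Real.log (z : ℝ) = (E : ℝ) ^ 2 * Real.log 2 := by
    rw [hzdef]
    push_cast
    rw [Real.log_pow]
    push_cast
    rfl
  have hE2pos : (0 : ℝ) < (E : ℝ) ^ 2 := by positivity
  have hlz1 : (E : ℝ) ^ 2 / 2 ≤ Real.log (z : ℝ) := by rw [hlz]; nlinarith
  have hlK : Real.log ((K : ℝ) ^ 2) = 2 * (B * Real.log E) := by
    rw [hKdef]
    push_cast
    rw [Real.log_pow, Real.log_pow]
    push_cast
    rfl
  have hsq : (1 + Real.log E) ≤ 3 * √(E : ℝ) := log_le_sqrt (by linarith)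
  have hsqE : √(E : ℝ) * √(E : ℝ) = E := Real.mul_self_sqrt hE0.le
  have hfin : (8 + C₀) * (1 + Real.log E) * (4 * (2 + Real.log ((K : ℝ) ^ 2)) / Real.log (z : ℝ)) ≤
      72 * (8 + C₀) * (2 + 2 * B) / E := by
    have h1 : 2 + Real.log ((K : ℝ) ^ 2) ≤ (2 + 2 * B) * (1 + Real.log E) := by
      rw [hlK]
      nlinarith [Nat.cast_nonneg (α := ℝ) B]
    have h2 : (1 + Real.log E) * (1 + Real.log E) ≤ 9 * E := by
      calc (1 + Real.log E) * (1 + Real.log E) ≤ (3 * √(E : ℝ)) * (3 * √(E : ℝ)) :=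
            mul_le_mul hsq hsq (by linarith) (by positivity)
        _ = 9 * (√(E : ℝ) * √(E : ℝ)) := by ring
        _ = 9 * E := by rw [hsqE]
    have h3 : 4 * (2 + Real.log ((K : ℝ) ^ 2)) / Real.log (z : ℝ) ≤
        4 * ((2 + 2 * B) * (1 + Real.log E)) / ((E : ℝ) ^ 2 / 2) :=
      div_le_div₀ (by positivity) (by linarith) (by positivity) hlz1
    calc _ ≤ (8 + C₀) * (1 + Real.log E) * (4 * ((2 + 2 * B) * (1 + Real.log E)) / ((E : ℝ) ^ 2 / 2)) :=
          mul_le_mul_of_nonneg_left h3 (by positivity)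
      _ = 8 * (8 + C₀) * (2 + 2 * B) * ((1 + Real.log E) * (1 + Real.log E)) / (E : ℝ) ^ 2 := by
          field_simp
          ring
      _ ≤ 8 * (8 + C₀) * (2 + 2 * B) * (9 * E) / (E : ℝ) ^ 2 := by
          apply div_le_div_of_nonneg_right _ (by positivity)
          exact mul_le_mul_of_nonneg_left h2 (by positivity)
      _ = _ := by field_simp; ring
  have hΛ2 : Λ ≤ 2 * Real.log X := by rw [hΛ]; linarith
  calc 4 * Λ ^ 2 * (t * t * ∑ p ∈ (Ioc z (X + H)).filter Nat.Prime, ∑ q ∈ (Ioc (p / K) (K * p)).filter Nat.Prime,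
        (1 : ℝ) / (p * q))
      ≤ 4 * (2 * Real.log X) ^ 2 * (t * t * (72 * (8 + C₀) * (2 + 2 * B) / E)) := by
        apply mul_le_mul
        · apply mul_le_mul_of_nonneg_left _ (by norm_num)
          exact pow_le_pow_left₀ hΛ0.le hΛ2 2
        · apply mul_le_mul_of_nonneg_left _ (by positivity)
          exact hcl.trans hfin
        · apply mul_nonneg (by positivity)
          exact sum_nonneg fun _ _ => sum_nonneg fun _ _ => by positivity
        · positivity
    _ = _ := by ring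

end Pool.Agent.L5helper4.ML
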