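import Mathlib
import Pool.Agent.L5helper4.ML.M8
import Pool.Agent.L5helper4.ML.FDef

/-! The second moment. -/

set_option autoImplicit false

namespace Pool.Agent.L5helper4.ML

open Finset Filter MeasureTheory Classical
open Pool.Agent.W136.RF (cm cm_abs cm_mul)

lemma FF_abs {s : ℕ → ℝ → ℝ} (hs1 : ∀ p t, s p t = 1 ∨ s p t = -1) (T : Finset ℕ) (n : ℕ) (t : ℝ) :
    |FF s T n t| = 1 := by
  unfold FF
  rw [abs_prod]
  exact prod_eq_one fun h _ => cm_abs (fun p => hs1 p t) _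

lemma FF_meas {s : ℕ → ℝ → ℝ} (hs : ∀ p, Measurable (s p)) (T : Finset ℕ) (n : ℕ) : Measurable (FF s T n) := by
  unfold FF
  apply Finset.measurable_fun_prod
  intro h _
  unfold Pool.Agent.W136.RF.cm Finsupp.prod
  apply Finset.measurable_fun_prod
  intro p _
  exact (hs p).pow_const _

lemma FF_int {s : ℕ → ℝ → ℝ} (hs : ∀ p, Measurable (s p)) (hs1 : ∀ p t, s p t = 1 ∨ s p t = -1) (T : Finset ℕ)
    (n m : ℕ) (u v : ℝ) : IntegrableOn (fun t => FF s T n t * FF s T m t) (Set.Icc u v) := by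
  apply Integrable.of_bound ((FF_meas hs T n).mul (FF_meas hs T m)).aestronglyMeasurable 1
  apply Eventually.of_forall
  intro t
  show |FF s T n t * FF s T m t| ≤ 1
  rw [abs_mul, FF_abs hs1, FF_abs hs1, one_mul]

/-- what is needed about the integrals of the products -/
def PI (s : ℕ → ℝ → ℝ) (u v C κ : ℝ) : Prop := ∀ (T : Finset ℕ) (K z n m P : ℕ), 2 ≤ K → K ≤ z → 1 ≤ n → 1 ≤ m →
  Dom K z (RR T n * RR T m) P → |∫ t in u..v, FF s T n t * FF s T m t| ≤
    C * (1 + Real.log ((RR T n * RR T m : ℕ) : ℝ) / Real.log 2) * (1 / (K : ℝ)) ^ κ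

lemma RR_log {T : Finset ℕ} {n X : ℕ} (hn : 1 ≤ n) (hnX : n ≤ X) (hTX : T.sup id ≤ X) (hX : 2 ≤ X) :
    Real.log (RR T n : ℝ) ≤ T.card * (2 * Real.log X) := by
  have hX0 : (0 : ℝ) < X := by exact_mod_cast (by omega : 0 < X)
  unfold RR
  push_cast
  rw [Real.log_prod (fun h _ => by positivity)]
  calc ∑ h ∈ T, Real.log ((n : ℝ) + h) ≤ ∑ h ∈ T, 2 * Real.log X := by
        apply sum_le_sum
        intro h hh
        have h1 : h ≤ X := (le_sup (f := id) hh).trans hTX
        have h2 : (n : ℝ) + h ≤ X * X := by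
          have : n + h ≤ X * X := by nlinarith
          exact_mod_cast this
        have h3 := Real.log_le_log (by positivity) h2
        rw [Real.log_mul hX0.ne' hX0.ne'] at h3
        linarith
    _ = _ := by rw [sum_const, nsmul_eq_mul]

theorem second (s : ℕ → ℝ → ℝ) (u v C κ : ℝ) (huv : u ≤ v) (hκ : 0 < κ) (hC : 0 ≤ C) (hs : ∀ p, Measurable (s p))
    (hs1 : ∀ p t, s p t = 1 ∨ s p t = -1) (hPI : PI s u v C κ) (T : Finset ℕ) (hT : T.Nonempty) :
    ∃ (C' : ℝ) (X₀ : ℕ), ∀ X : ℕ, X₀ ≤ X → ∀ c : ℕ → ℝ, (∀ n, |c n| ≤ 1) →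
      ∫ t in Set.Icc u v, (∑ n ∈ Icc 1 X, c n * FF s T n t / n) ^ 2 ≤
        C' * Real.log X ^ 2 / Real.log X ^ (1 / 8 : ℝ) := by
  obtain ⟨B, hB⟩ : ∃ B : ℕ, 9 ≤ B * κ := by
    refine ⟨⌈9 / κ⌉₊, ?_⟩
    have := Nat.le_ceil (9 / κ)
    rw [div_le_iff₀ hκ] at this
    exact this
  obtain ⟨C₁, hC₁, E₁, h1⟩ := bad_sum T hT B
  obtain ⟨C₂, hC₂, E₂, h2⟩ := close_pairs T hT B
  obtain ⟨E₃, h3⟩ := eventually_atTop.1 (ev_params B (T.sup id) 0)
  obtain ⟨τ, hτ⟩ : ∃ τ : ℝ, τ = (T.card : ℝ) := ⟨_, rfl⟩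
  have hτ0 : 0 ≤ τ := by rw [hτ]; positivity
  obtain ⟨M, hM⟩ : ∃ M : ℕ, M = max (max E₁ E₂) (max E₃ 2) := ⟨_, rfl⟩
  refine ⟨((v - u) * (4 * C₁ + C₂) + 4 * (C * (1 + 1536 * τ))) * 2, ⌈Real.exp ((M : ℝ) ^ 8)⌉₊, fun X hX c hc => ?_⟩
  -- the parameter E
  have hX' : Real.exp ((M : ℝ) ^ 8) ≤ X := (Nat.le_ceil _).trans (by exact_mod_cast hX)
  have hXr : (0 : ℝ) < X := (Real.exp_pos _).trans_le hX'
  have hLM : (M : ℝ) ^ 8 ≤ Real.log X := by rw [Real.le_log_iff_exp_le hXr]; exact hX'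
  obtain ⟨L, hL⟩ : ∃ L : ℝ, L = Real.log X := ⟨_, rfl⟩
  rw [← hL] at hLM
  have hL0 : 0 ≤ L := le_trans (by positivity) hLM
  have hrt : (M : ℝ) ≤ L ^ (1 / 8 : ℝ) := by
    have h4 := Real.rpow_le_rpow (by positivity) hLM (by norm_num : (0 : ℝ) ≤ 1 / 8)
    rw [← Real.rpow_natCast, ← Real.rpow_mul (by positivity)] at h4
    norm_num at h4
    exact h4
  set E := ⌊L ^ (1 / 8 : ℝ)⌋₊ with hEdef
  have hME : M ≤ E := by rw [hEdef, Nat.le_floor_iff (by positivity)]; exact hrt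
  have hE2 : 2 ≤ E := by omega
  have hEr : (2 : ℝ) ≤ E := by exact_mod_cast hE2
  have hE0 : (0 : ℝ) < E := by linarith
  have hEle : (E : ℝ) ≤ L ^ (1 / 8 : ℝ) := Nat.floor_le (by positivity)
  have hElt : L ^ (1 / 8 : ℝ) ≤ 2 * E := by
    have := Nat.lt_floor_add_one (L ^ (1 / 8 : ℝ))
    rw [← hEdef] at this
    linarith
  have hL8 : (L ^ (1 / 8 : ℝ)) ^ 8 = L := by
    rw [← Real.rpow_natCast, ← Real.rpow_mul hL0]
    norm_num
  have hX1 : (E : ℝ) ^ 8 ≤ L := by
    calc (E : ℝ) ^ 8 ≤ (L ^ (1 / 8 : ℝ)) ^ 8 := pow_le_pow_left₀ hE0.le hEle 8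
      _ = L := hL8
  have hX2 : L ≤ 256 * (E : ℝ) ^ 8 := by
    calc L = (L ^ (1 / 8 : ℝ)) ^ 8 := hL8.symm
      _ ≤ (2 * E) ^ 8 := pow_le_pow_left₀ (by positivity) hElt 8
      _ = _ := by ring
  have hE8 : (256 : ℝ) ≤ (E : ℝ) ^ 8 := by
    calc (256 : ℝ) = 2 ^ 8 := by norm_num
      _ ≤ (E : ℝ) ^ 8 := pow_le_pow_left₀ (by norm_num) hEr 8
  have hL256 : 256 ≤ L := hE8.trans hX1
  have hb := h1 E (by omega) X (by rw [← hL]; exact hX1) (by rw [← hL]; exact hX2)
  have hcp := h2 E (by omega) X (by rw [← hL]; exact hX1) (by rw [← hL]; exact hX2)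
  obtain ⟨-, -, hKz, hH5, -, -⟩ := h3 E (by omega)
  rw [← hL] at hb hcp ⊢
  set K := E ^ B with hKdef
  set z := 2 ^ E ^ 2 with hzdef
  have hB1 : 1 ≤ B := by
    by_contra h4
    have : B = 0 := by omega
    rw [this] at hB
    push_cast at hB
    linarith
  have hK2 : 2 ≤ K := by
    rw [hKdef]
    calc 2 ≤ E := hE2
      _ = E ^ 1 := (pow_one E).symm
      _ ≤ E ^ B := Nat.pow_le_pow_right (by omega) hB1
  have hKz' : K ≤ z := by nlinarith
  have hEX : E + 1 ≤ X := by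
    have h4 : (E : ℝ) ≤ L := by
      refine le_trans ?_ hX1
      calc (E : ℝ) = (E : ℝ) ^ 1 := (pow_one _).symm
        _ ≤ (E : ℝ) ^ 8 := pow_le_pow_right₀ (by linarith) (by norm_num)
    have h5 := Real.log_le_sub_one_of_pos hXr
    rw [← hL] at h5
    have : (E : ℝ) + 1 ≤ X := by linarith
    exact_mod_cast this
  -- the integral
  set bad : ℕ → Prop := fun n => ¬ ∃ P, Dom K z (RR T n) P with hbad
  set I : ℕ → ℕ → ℝ := fun n m => ∫ t in u..v, FF s T n t * FF s T m t with hI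
  have hI1 : ∀ n m, |I n m| ≤ v - u := by
    intro n m
    have h4 := intervalIntegral.norm_integral_le_of_norm_le_const (a := u) (b := v) (C := 1)
      (f := fun t => FF s T n t * FF s T m t) (fun t _ => by
        rw [Real.norm_eq_abs, abs_mul, FF_abs hs1, FF_abs hs1, one_mul])
    rw [one_mul, abs_of_nonneg (by linarith)] at h4
    exact h4
  set D : ℝ := C * (1 + 1536 * τ) / E with hD
  have hD0 : 0 ≤ D := by positivity
  have hI2 : ∀ n ∈ Icc 1 X, ∀ m ∈ Icc 1 X, |I n m| ≤ (v - u) * ((if bad n then 1 else 0) + (if bad m then 1 else 0) +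
      (if Close K z T n m then 1 else 0)) + D := by
    intro n hn m hm
    rw [mem_Icc] at hn hm
    have hvu : 0 ≤ v - u := by linarith
    by_cases hbn : bad n
    · rw [if_pos hbn]
      have h4 : (0 : ℝ) ≤ (if bad m then 1 else 0) := by split_ifs <;> norm_num
      have h5 : (0 : ℝ) ≤ (if Close K z T n m then 1 else 0) := by split_ifs <;> norm_num
      have h6 := hI1 n m
      nlinarith
    by_cases hbm : bad m
    · rw [if_pos hbm]
      have h4 : (0 : ℝ) ≤ (if bad n then 1 else 0) := by split_ifs <;> norm_num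
      have h5 : (0 : ℝ) ≤ (if Close K z T n m then 1 else 0) := by split_ifs <;> norm_num
      have h6 := hI1 n m
      nlinarith
    by_cases hcl : Close K z T n m
    · rw [if_pos hcl]
      have h4 : (0 : ℝ) ≤ (if bad n then 1 else 0) := by split_ifs <;> norm_num
      have h5 : (0 : ℝ) ≤ (if bad m then 1 else 0) := by split_ifs <;> norm_num
      have h6 := hI1 n m
      nlinarith
    rw [if_neg hbn, if_neg hbm, if_neg hcl]
    have hbn' : ∃ P, Dom K z (RR T n) P := not_not.1 hbn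
    have hbm' : ∃ P, Dom K z (RR T m) P := not_not.1 hbm
    obtain ⟨P, hP⟩ := hbn'
    obtain ⟨Q, hQ⟩ := hbm'
    obtain ⟨P', hP'⟩ := close_or hK2 hP hQ hn.1 hm.1 hcl
    have h4 := hPI T K z n m P' hK2 hKz' hn.1 hm.1 hP'
    have h5 : Real.log ((RR T n * RR T m : ℕ) : ℝ) ≤ 4 * τ * L := by
      have h6 := RR_log (T := T) (X := X) hn.1 hn.2 (by omega) (by omega)
      have h7 := RR_log (T := T) (X := X) hm.1 hm.2 (by omega) (by omega)
      have h8 : (RR T n : ℝ) ≠ 0 := by exact_mod_cast RR_ne hn.1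
      have h9 : (RR T m : ℝ) ≠ 0 := by exact_mod_cast RR_ne hm.1
      push_cast
      rw [Real.log_mul h8 h9]
      rw [← hL, ← hτ] at h6 h7
      linarith
    have h6 : (1 / (K : ℝ)) ^ κ ≤ 1 / (E : ℝ) ^ 9 := by
      rw [Real.div_rpow (by norm_num) (by positivity), Real.one_rpow]
      apply one_div_le_one_div_of_le (by positivity)
      rw [hKdef]
      push_cast
      rw [← Real.rpow_natCast (E : ℝ) B, ← Real.rpow_mul hE0.le]
      calc (E : ℝ) ^ 9 = (E : ℝ) ^ (9 : ℝ) := by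
            rw [← Real.rpow_natCast]; norm_num
        _ ≤ (E : ℝ) ^ (B * κ) := Real.rpow_le_rpow_of_exponent_le (by linarith) hB
    have hlog2a := Real.log_two_gt_d9
    have h7 : 1 + Real.log ((RR T n * RR T m : ℕ) : ℝ) / Real.log 2 ≤ (1 + 1536 * τ) * (E : ℝ) ^ 8 := by
      have h8 : Real.log ((RR T n * RR T m : ℕ) : ℝ) / Real.log 2 ≤ 6 * τ * L := by
        rw [div_le_iff₀ (by linarith)]
        have : 0 ≤ τ * L := by positivity
        nlinarith
      have h9 : 6 * τ * L ≤ 1536 * τ * (E : ℝ) ^ 8 := by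
        have := mul_le_mul_of_nonneg_left hX2 (by positivity : 0 ≤ 6 * τ)
        linarith
      linarith
    have h8 : 0 ≤ 1 + Real.log ((RR T n * RR T m : ℕ) : ℝ) / Real.log 2 := by
      have h9 : (1 : ℝ) ≤ ((RR T n * RR T m : ℕ) : ℝ) := by
        exact_mod_cast Nat.mul_pos (Nat.pos_of_ne_zero (RR_ne hn.1)) (Nat.pos_of_ne_zero (RR_ne hm.1))
      have := Real.log_nonneg h9
      positivity
    calc |I n m| ≤ C * (1 + Real.log ((RR T n * RR T m : ℕ) : ℝ) / Real.log 2) * (1 / (K : ℝ)) ^ κ := h4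
      _ ≤ C * ((1 + 1536 * τ) * (E : ℝ) ^ 8) * (1 / (E : ℝ) ^ 9) := by
          apply mul_le_mul _ h6 (by positivity) (by positivity)
          exact mul_le_mul_of_nonneg_left h7 hC
      _ = D := by rw [hD]; field_simp
      _ = _ := by ring
  have hint : ∫ t in Set.Icc u v, (∑ n ∈ Icc 1 X, c n * FF s T n t / n) ^ 2 =
      ∑ n ∈ Icc 1 X, ∑ m ∈ Icc 1 X, c n * c m / (n * m) * I n m := by
    have e1 : ∀ t, (∑ n ∈ Icc 1 X, c n * FF s T n t / n) ^ 2 =
        ∑ n ∈ Icc 1 X, ∑ m ∈ Icc 1 X, c n * c m / (n * m) * (FF s T n t * FF s T m t) := by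
      intro t
      rw [pow_two, sum_mul_sum]
      apply sum_congr rfl
      intro n _
      apply sum_congr rfl
      intro m _
      ring
    simp only [e1]
    rw [integral_finsetSum]
    · apply sum_congr rfl
      intro n _
      rw [integral_finsetSum]
      · apply sum_congr rfl
        intro m _
        rw [integral_const_mul, hI]
        simp only
        rw [intervalIntegral.integral_of_le huv, integral_Icc_eq_integral_Ioc]
      · intro m _
        exact (FF_int hs hs1 T n m u v).const_mul _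
    · intro n _
      apply integrable_finsetSum
      intro m _
      exact (FF_int hs hs1 T n m u v).const_mul _
  rw [hint]
  have hharm : ∑ n ∈ Icc 1 X, (1 : ℝ) / n ≤ 2 * L := by
    have := harm_le X
    rw [← hL] at this
    linarith
  have hharm0 : 0 ≤ ∑ n ∈ Icc 1 X, (1 : ℝ) / n := sum_nonneg fun _ _ => by positivity
  have hvu : 0 ≤ v - u := by linarith
  calc ∑ n ∈ Icc 1 X, ∑ m ∈ Icc 1 X, c n * c m / (n * m) * I n m
      ≤ ∑ n ∈ Icc 1 X, ∑ m ∈ Icc 1 X, 1 / ((n : ℝ) * m) * ((v - u) * ((if bad n then 1 else 0) +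
        (if bad m then 1 else 0) + (if Close K z T n m then 1 else 0)) + D) := by
        apply sum_le_sum
        intro n hn
        apply sum_le_sum
        intro m hm
        refine (le_abs_self _).trans ?_
        rw [abs_mul, abs_div, abs_mul, abs_of_nonneg (by positivity : (0 : ℝ) ≤ (n : ℝ) * m)]
        apply mul_le_mul _ (hI2 n hn m hm) (abs_nonneg _) (by positivity)
        apply div_le_div_of_nonneg_right _ (by positivity)
        exact mul_le_one₀ (hc n) (abs_nonneg _) (hc m)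
    _ = (v - u) * (2 * ((∑ n ∈ (Icc 1 X).filter bad, (1 : ℝ) / n) * ∑ m ∈ Icc 1 X, (1 : ℝ) / m) +
        ∑ x ∈ ((Icc 1 X) ×ˢ (Icc 1 X)).filter (fun x => Close K z T x.1 x.2), (1 : ℝ) / (x.1 * x.2)) +
        D * ((∑ n ∈ Icc 1 X, (1 : ℝ) / n) * ∑ m ∈ Icc 1 X, (1 : ℝ) / m) := by
        have f1 : (∑ n ∈ (Icc 1 X).filter bad, (1 : ℝ) / n) * ∑ m ∈ Icc 1 X, (1 : ℝ) / m =
            ∑ n ∈ Icc 1 X, ∑ m ∈ Icc 1 X, 1 / ((n : ℝ) * m) * (if bad n then 1 else 0) := by
          rw [sum_filter, sum_mul_sum]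
          apply sum_congr rfl
          intro n _
          apply sum_congr rfl
          intro m _
          by_cases hbn : bad n
          · rw [if_pos hbn, if_pos hbn, one_div_mul_one_div, mul_one]
          · rw [if_neg hbn, if_neg hbn, zero_mul, mul_zero]
        have f2 : (∑ n ∈ (Icc 1 X).filter bad, (1 : ℝ) / n) * ∑ m ∈ Icc 1 X, (1 : ℝ) / m =
            ∑ n ∈ Icc 1 X, ∑ m ∈ Icc 1 X, 1 / ((n : ℝ) * m) * (if bad m then 1 else 0) := by
          rw [f1, sum_comm]
          apply sum_congr rfl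
          intro n _
          apply sum_congr rfl
          intro m _
          rw [mul_comm (m : ℝ) n]
        have f3 : ∑ x ∈ ((Icc 1 X) ×ˢ (Icc 1 X)).filter (fun x => Close K z T x.1 x.2), (1 : ℝ) / (x.1 * x.2) =
            ∑ n ∈ Icc 1 X, ∑ m ∈ Icc 1 X, 1 / ((n : ℝ) * m) * (if Close K z T n m then 1 else 0) := by
          rw [sum_filter, sum_product]
          apply sum_congr rfl
          intro n _
          apply sum_congr rfl
          intro m _
          split_ifs <;> simp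
        have f4 : (∑ n ∈ Icc 1 X, (1 : ℝ) / n) * ∑ m ∈ Icc 1 X, (1 : ℝ) / m =
            ∑ n ∈ Icc 1 X, ∑ m ∈ Icc 1 X, 1 / ((n : ℝ) * m) := by
          rw [sum_mul_sum]
          apply sum_congr rfl
          intro n _
          apply sum_congr rfl
          intro m _
          rw [one_div_mul_one_div]
        rw [two_mul]
        nth_rewrite 2 [f2]
        rw [f1, f3, f4]
        simp only [mul_sum, ← sum_add_distrib]
        apply sum_congr rfl
        intro n _
        apply sum_congr rfl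
        intro m _
        ring
    _ ≤ (v - u) * (2 * ((C₁ * (L / E)) * (2 * L)) + C₂ * (L ^ 2 / E)) + D * ((2 * L) * (2 * L)) := by
        apply add_le_add
        · apply mul_le_mul_of_nonneg_left _ hvu
          apply add_le_add _ hcp
          apply mul_le_mul_of_nonneg_left _ (by norm_num)
          exact mul_le_mul hb hharm hharm0 (by positivity)
        · apply mul_le_mul_of_nonneg_left _ hD0
          exact mul_le_mul hharm hharm hharm0 (by positivity)
    _ = ((v - u) * (4 * C₁ + C₂) + 4 * (C * (1 + 1536 * τ))) * (L ^ 2 / E) := by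
        rw [hD]
        ring
    _ ≤ ((v - u) * (4 * C₁ + C₂) + 4 * (C * (1 + 1536 * τ))) * (L ^ 2 / (L ^ (1 / 8 : ℝ) / 2)) := by
        apply mul_le_mul_of_nonneg_left _ (by positivity)
        apply div_le_div_of_nonneg_left (by positivity) (by positivity)
        linarith
    _ = _ := by
        field_simp

end Pool.Agent.L5helper4.ML
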