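import Mathlib
import Pool.Agent.L5helper4.ML.M9
import Pool.Agent.L5helper15.ML.PairInt
import Pool.Agent.L5helper67.ML.AeSecond
import Pool.Agent.L5helper67.ML.AperAe
import Pool.Agent.L5helper67.ML.QIFam
import Pool.Agent.TH668.Gen.D

/-! The almost everywhere statement for one family. -/

set_option autoImplicit false

namespace Pool.Agent.L5helper4.ML

open Finset Filter MeasureTheory
open Pool.Agent.W136.RF (cm cm_abs cm_mul)
open Pool.Agent.W257.FS (SignMul IsFurst bern)

/-- the multiplicative function `n ↦ g n * ∏ s p ^ k`, product over the exact prime powers `p ^ k` dividing `n`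
(with the value `1` at `0`) -/
noncomputable def twist (g s : ℕ → ℝ) (n : ℕ) : ℝ :=
  if n = 0 then 1 else g n * n.factorization.prod fun p k => s p ^ k

/-- infinite distance to every Dirichlet character -/
def Aperiodic (f : ℕ → ℝ) : Prop := ∀ q : ℕ, 1 ≤ q → ∀ χ : DirichletCharacter ℂ q,
  Tendsto (fun X : ℕ => ∑ p ∈ (Icc 1 X).filter Nat.Prime,
    (1 - ((f p : ℂ) * starRingEnd ℂ (χ (p : ZMod q))).re) / p) atTop atTop

lemma twist_or {g s : ℕ → ℝ} (hg : SignMul g) (hs : ∀ p, s p = 1 ∨ s p = -1) (n : ℕ) :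
    twist g s n = 1 ∨ twist g s n = -1 := by
  unfold twist
  split_ifs with h
  · exact Or.inl rfl
  · have h1 := cm_abs hs n
    unfold Pool.Agent.W136.RF.cm at h1
    rcases hg.val n (by omega) with h2 | h2 <;> rcases abs_eq (zero_le_one) |>.1 h1 with h3 | h3 <;> rw [h2, h3] <;> simp

lemma twist_mul {g s : ℕ → ℝ} (hg : SignMul g) (hs : ∀ p, s p = 1 ∨ s p = -1) : SignMul (twist g s) := by
  have h1 : twist g s 1 = 1 := by
    unfold twist
    simp [hg.one]
  refine ⟨h1, fun m n hmn => ?_, fun n _ => twist_or hg hs n⟩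
  rcases Nat.eq_zero_or_pos m with rfl | hm0
  · rw [Nat.coprime_zero_left] at hmn
    subst hmn
    rw [h1, mul_one, mul_one]
  rcases Nat.eq_zero_or_pos n with rfl | hn0
  · rw [Nat.coprime_zero_right] at hmn
    subst hmn
    rw [h1, one_mul, one_mul]
  have h7 := cm_mul s hm0.ne' hn0.ne'
  unfold Pool.Agent.W136.RF.cm at h7
  unfold twist
  rw [if_neg (Nat.mul_pos hm0 hn0).ne', if_neg hm0.ne', if_neg hn0.ne', hg.mul m n hmn, h7]
  ring

lemma qi_abs {s : ℕ → ℝ → ℝ} {u v C κ : ℝ} (h : QI s u v C κ) : QI s u v |C| κ := by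
  intro p hp O hO ρ hρ hOρ
  refine (h p hp O hO ρ hρ hOρ).trans ?_
  have hp0 : (0 : ℝ) < p := by exact_mod_cast hp.pos
  have hρ0 : 0 < ρ := lt_of_lt_of_le (by positivity) hρ
  have : 0 ≤ ρ ^ κ := (Real.rpow_pos_of_pos hρ0 κ).le
  exact mul_le_mul_of_nonneg_right (mul_le_mul_of_nonneg_right (le_abs_self C) (by positivity)) this

/-- one compact interval -/
theorem ae_interval (s : ℕ → ℝ → ℝ) (hs : ∀ p, Measurable (s p)) (hs1 : ∀ p t, s p t = 1 ∨ s p t = -1)
    (u v : ℝ) (huv : u ≤ v) (hQ : ∃ C κ : ℝ, 0 < κ ∧ QI s u v C κ) (g : ℕ → ℝ) (hg : SignMul g) (c : ℕ → ℝ)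
    (hc : ∀ n, |c n| ≤ 1) :
    ∀ᵐ t ∂(volume.restrict (Set.Icc u v)), Aperiodic (twist g fun p => s p t) ∧
      (∀ H : Finset ℕ, H.Nonempty → Tendsto (fun X : ℕ => (∑ n ∈ Icc 1 X,
        c n * (∏ h ∈ H, twist g (fun p => s p t) (n + h)) / n) / Real.log X) atTop (nhds 0)) := by
  obtain ⟨C, κ, hκ, hQ⟩ := hQ
  have hPI : PI s u v |C| κ := fun T K z n m P hK hKz hn hm hD =>
    pair_int s u v |C| κ hκ (abs_nonneg C) hs1 (qi_abs hQ) T hK hKz hn hm hD
  have hcor : ∀ H : Finset ℕ, H.Nonempty → ∀ᵐ t ∂(volume.restrict (Set.Icc u v)),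
      Tendsto (fun X : ℕ => (∑ n ∈ Icc 1 X,
        c n * (∏ h ∈ H, twist g (fun p => s p t) (n + h)) / n) / Real.log X) atTop (nhds 0) := by
    intro H hH
    obtain ⟨C', X₀, h2⟩ := second s u v |C| κ huv hκ (abs_nonneg C) hs hs1 hPI H hH
    set d : ℕ → ℝ := fun n => if n = 0 then 0 else c n * ∏ h ∈ H, g (n + h) with hd
    have hd1 : ∀ n, |d n| ≤ 1 := by
      intro n
      rw [hd]
      simp only
      split_ifs with h0
      · simp
      · rw [abs_mul, abs_prod]
        have : ∏ h ∈ H, |g (n + h)| = 1 := by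
          apply prod_eq_one
          intro h _
          rcases hg.val (n + h) (by omega) with h3 | h3 <;> rw [h3] <;> simp
        rw [this, mul_one]
        exact hc n
    have h3 := Pool.Agent.L5helper67.MLF.ae_of_second (fun n t => d n * FF s H n t)
      (fun n => (FF_meas hs H n).const_mul _) (fun n t => by
        rw [abs_mul, FF_abs hs1, mul_one]
        exact hd1 n) u v C' X₀ (fun X hX => h2 X hX d hd1)
    filter_upwards [h3] with t ht
    refine ht.congr fun X => ?_
    congr 1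
    apply sum_congr rfl
    intro n hn
    rw [mem_Icc] at hn
    congr 1
    have h4 : FF s H n t * ∏ h ∈ H, g (n + h) = ∏ h ∈ H, twist g (fun p => s p t) (n + h) := by
      unfold FF
      rw [← prod_mul_distrib]
      apply prod_congr rfl
      intro h _
      unfold twist Pool.Agent.W136.RF.cm
      rw [if_neg (by omega), mul_comm]
    rw [hd]
    simp only
    rw [if_neg (by omega), ← h4]
    ring
  have hap : ∀ᵐ t ∂(volume.restrict (Set.Icc u v)), ∀ q : ℕ, 1 ≤ q → ∀ χ : DirichletCharacter ℂ q,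
      Tendsto (fun X : ℕ => ∑ p ∈ (Icc 1 X).filter Nat.Prime,
        (1 - ((twist g (fun p => s p t) p : ℂ) * starRingEnd ℂ (χ (p : ZMod q))).re) / p) atTop atTop := by
    rw [ae_all_iff]
    intro q
    by_cases hq : 1 ≤ q
    swap
    · exact Eventually.of_forall fun ω h => absurd h hq
    have : NeZero q := ⟨by omega⟩
    have h2 : ∀ᵐ t ∂(volume.restrict (Set.Icc u v)), ∀ χ : DirichletCharacter ℂ q,
        Tendsto (fun X : ℕ => ∑ p ∈ (Icc 1 X).filter Nat.Prime,
          (1 - ((twist g (fun p => s p t) p : ℂ) * starRingEnd ℂ (χ (p : ZMod q))).re) / p)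
          atTop atTop := by
      rw [ae_all_iff]
      intro χ
      have h3 := Pool.Agent.L5helper67.MLA.aper_ae s u v C κ huv hκ hs hs1 hQ
        (fun p => if p = 0 then 0 else g p * (χ (p : ZMod q)).re) (fun p => by
          show |(if p = 0 then (0 : ℝ) else g p * (χ (p : ZMod q)).re)| ≤ 1
          split_ifs with h0
          · simp
          · rw [abs_mul]
            have : |g p| = 1 := by rcases hg.val p (by omega) with h3 | h3 <;> rw [h3] <;> simp
            rw [this, one_mul]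
            exact (Complex.abs_re_le_norm _).trans (χ.norm_le_one _))
      filter_upwards [h3] with t ht
      refine ht.congr fun X => ?_
      apply sum_congr rfl
      intro p hp
      have hpp : p.Prime := (mem_filter.1 hp).2
      have h4 : twist g (fun p => s p t) p = g p * s p t := by
        unfold twist
        rw [if_neg hpp.ne_zero, hpp.factorization, Finsupp.prod_single_index]
        · rw [pow_one]
        · exact pow_zero _
      rw [h4, if_neg hpp.ne_zero]
      congr 1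
      simp only [Complex.mul_re, Complex.ofReal_re, Complex.ofReal_im, zero_mul, sub_zero,
        Complex.conj_re]
      ring
    filter_upwards [h2] with t ht _
    exact ht
  have hcor' : ∀ᵐ t ∂(volume.restrict (Set.Icc u v)), ∀ H : Finset ℕ, H.Nonempty →
      Tendsto (fun X : ℕ => (∑ n ∈ Icc 1 X,
        c n * (∏ h ∈ H, twist g (fun p => s p t) (n + h)) / n) / Real.log X) atTop (nhds 0) := by
    rw [ae_all_iff]
    intro H
    by_cases hH : H.Nonempty
    · filter_upwards [hcor H hH] with t ht _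
      exact ht
    · exact Eventually.of_forall fun ω h => absurd h hH
  filter_upwards [hap, hcor'] with t h1 h2
  exact ⟨h1, h2⟩

/-- the conclusion -/
def Good (f c : ℕ → ℝ) : Prop :=
  SignMul f ∧ Aperiodic f ∧ (∀ μ : Measure (ℤ → ℝ), IsFurst f μ ↔ μ = bern) ∧
    ∀ H : Finset ℕ, H.Nonempty → Tendsto (fun X : ℕ => (∑ n ∈ Icc 1 X, c n * (∏ h ∈ H, f (n + h)) / n) /
      Real.log X) atTop (nhds 0)

theorem ae_family (s : ℕ → ℝ → ℝ) (hs : ∀ p, Measurable (s p)) (hs1 : ∀ p t, s p t = 1 ∨ s p t = -1)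
    (u v : ℕ → ℝ) (huv : ∀ k, u k ≤ v k) (hQ : ∀ k, ∃ C κ : ℝ, 0 < κ ∧ QI s (u k) (v k) C κ) (g : ℕ → ℝ)
    (hg : SignMul g) (c : ℕ → ℝ) (hc : ∀ n, |c n| ≤ 1) :
    ∀ᵐ t : ℝ, (∃ k, t ∈ Set.Icc (u k) (v k)) → Good (twist g fun p => s p t) c := by
  have h1 : ∀ k, ∀ᵐ t : ℝ, t ∈ Set.Icc (u k) (v k) → Good (twist g fun p => s p t) c := by
    intro k
    have h2 := ae_interval s hs hs1 (u k) (v k) (huv k) (hQ k) g hg c hc
    have h3 := ae_interval s hs hs1 (u k) (v k) (huv k) (hQ k) g hg (fun _ => 1) (by simp)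
    rw [ae_restrict_iff' measurableSet_Icc] at h2 h3
    filter_upwards [h2, h3] with t h2 h3 ht
    refine ⟨twist_mul hg fun p => hs1 p t, (h2 ht).1, fun μ => ?_, (h2 ht).2⟩
    refine Pool.Agent.TH668.Gen.furst_of_corr (twist_mul hg fun p => hs1 p t)
      (twist_or hg fun p => hs1 p t) (fun H hH => ?_) μ
    refine ((h3 ht).2 H hH).congr fun X => ?_
    unfold Pool.Agent.TH668.Gen.Corr
    congr 1
    apply sum_congr rfl
    intro n _
    rw [one_mul]
  rw [← ae_all_iff] at h1
  filter_upwards [h1] with t ht ⟨k, hk⟩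
  exact ht k hk

end Pool.Agent.L5helper4.ML
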